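import Pool.Agent.Helper57.HS.Defs

/-!
# HS: interfaces of the second form of the project (full semiampleness, RK used as a black box)

`S_AYG` (Aubin–Yau, negative case) gives `S_AYT`; `S_CORE` gives the parallel projector `P`; `S_SPLIT`:
`P Q = ε P H`; `S_ALPHA`, `S_CALP`, `S_AYG` give `ε tr (H_N Q⁻¹) < 1` for some `ε` (`S_SMALL`); so the
canonical bundle has a metric with semipositive curvature of constant corank `k` (`S_POST`), and the
theorem RK applies.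
-/

open Complex Metric Set Filter Topology MeasureTheory
open scoped ContDiff ComplexConjugate ComplexOrder Manifold Matrix

namespace Pool.Agent.Helper57.HS

open Pool.Agent.Helper95.Lin Pool.Agent.Helper16.Abund Pool.Agent.Helper92.Orb Pool.Agent.Helper10.SP
  Pool.Agent.Helper95.RK

universe u v

/-- AYG. The theorem of Aubin and Yau on étale relations: for invariant Kähler metrics `H`, `X` and a
smooth invariant function `f` the equation `det (X + LM u) = e^(u + f) det H` has a smooth invariant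
solution `u` with `X + LM u > 0`. -/
def S_AYG : Prop := ∀ {n : ℕ} (T : Set (Cn n)) {G : Type u} [Group G]
  (R : G → Cn n → Cn n → Prop) (H X : Cn n → Matrix (Fin n) (Fin n) ℂ), KEt T R H → KEt T R X →
  ∀ f : Cn n → ℝ, InvF T R f → ∃ u : Cn n → ℝ, InvF T R u ∧
    KEt T R (fun x => X x + LM u x) ∧
    ∀ x ∈ T, (X x + LM u x).det.re = Real.exp (u x + f x) * (H x).det.re

/-- `A ≤ B` in the sense of Hermitian forms. -/
def MLe {n : ℕ} (A B : Matrix (Fin n) (Fin n) ℂ) : Prop := (B - A).PosSemidef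

/-- The square of the norm of the difference of the connections, in the metric `Q`. -/
noncomputable def AQt {n : ℕ} (H Q : Cn n → Matrix (Fin n) (Fin n) ℂ) (x : Cn n) : ℝ :=
  (∑ k, ∑ l, (Q x)⁻¹ l k *
    Matrix.trace (Adf H Q k x * Q x * (Adf H Q l x)ᴴ * (Q x)⁻¹)).re

/-- `C` is a compact fundamental set. -/
def FunC {n : ℕ} (T : Set (Cn n)) {G : Type u} (R : G → Cn n → Cn n → Prop) (C : Set (Cn n)) :
    Prop := C ⊆ T ∧ IsCompact C ∧ ∀ x ∈ T, ∃ γ, ∃ y ∈ C, R γ x y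

/-- CALP. Calabi's third order estimate, with polynomial dependence on the ellipticity constant. -/
def S_CALP : Prop := ∀ {n : ℕ} (T : Set (Cn n)) {G : Type u} [Group G]
  (R : G → Cn n → Cn n → Prop) (H : Cn n → Matrix (Fin n) (Fin n) ℂ), KEt T R H →
  ∀ C, FunC T R C → ∀ b : ℝ, ∃ (K : ℝ) (N : ℕ), 0 < K ∧ ∀ (Λ : ℝ)
    (Q η : Cn n → Matrix (Fin n) (Fin n) ℂ), 1 ≤ Λ → KEt T R Q →
    (∀ i j, ContDiffOn ℝ ∞ (fun x => η x i j) T) → (∀ x ∈ T, rho Q x = Q x - η x) →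
    (∀ x ∈ C, ∀ i j, ‖η x i j‖ ≤ b ∧ ∀ l, ‖cdM l η x i j‖ ≤ b) →
    (∀ x ∈ T, MLe (H x) ((Λ : ℂ) • Q x) ∧ MLe (Q x) ((Λ : ℂ) • H x)) →
    ∀ x ∈ T, AQt H Q x ≤ K * Λ ^ N

/-- LSOL. Smooth solutions of `Δ_Q v - v = F`. -/
def S_LSOL : Prop := ∀ {n : ℕ} (T : Set (Cn n)) {G : Type u} [Group G]
  (R : G → Cn n → Cn n → Prop) (Q : Cn n → Matrix (Fin n) (Fin n) ℂ), KEt T R Q →
  ∀ F : Cn n → ℝ, InvF T R F → ∃ v : Cn n → ℝ, InvF T R v ∧
    ∀ x ∈ T, (trL Q v x).re - v x = F x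

/-- ALPHA. Uniform exponential integrability of quasi-plurisubharmonic functions. -/
def S_ALPHA : Prop := ∀ {n : ℕ} (T : Set (Cn n)) {G : Type u} [Group G]
  (R : G → Cn n → Cn n → Prop) (H : Cn n → Matrix (Fin n) (Fin n) ℂ), KEt T R H →
  ∀ κ, IsPUE T R κ → ∀ q : ℝ, 0 < q → ∃ α > 0, ∃ K : ℝ, ∀ w : Cn n → ℝ, InvF T R w →
    (∀ x ∈ T, ((q : ℂ) • H x + LM w x).PosSemidef) → (∀ x ∈ T, w x ≤ 0) →
    (∃ x ∈ T, w x = 0) → itg T κ H (fun x => Real.exp (- α * w x)) ≤ K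

/-- `P` is a holomorphic parallel `H`-orthogonal projector of rank `k` on `T` whose image is in the
nullity of the curvature, and `k` is the order of vanishing of `V`. -/
structure ParP {n : ℕ} (k : ℕ) (T : Set (Cn n)) {G : Type u} [Group G]
    (R : G → Cn n → Cn n → Prop) (H : Cn n → Matrix (Fin n) (Fin n) ℂ)
    (P : Cn n → Matrix (Fin n) (Fin n) ℂ) : Prop where
  holo : ∀ i j, DifferentiableOn ℂ (fun x => P x i j) T
  proj : ∀ x ∈ T, P x * P x = P x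
  tr : ∀ x ∈ T, Matrix.trace (P x) = k
  herm : ∀ x ∈ T, P x * H x = H x * (P x)ᴴ
  inv : InvH R fun x => P x * H x
  par : ∀ x ∈ T, ∀ l, cdM l P x = Gam H l x * P x - P x * Gam H l x
  null : ∀ x ∈ T, ∀ i j l m, ∑ p, P x i p * crv H x p j l m = 0
  vol : ∀ κ, IsPUE T R κ → ∃ r > 0, Tendsto (fun s : ℝ => VolP T κ H s / s ^ k) (𝓝[>] 0) (𝓝 r)

/-- COREP. The part of `S_CORE` which is used: existence of `P`. -/
def S_COREP : Prop := ∀ {n : ℕ} (T : Set (Cn n)) {G : Type u} [Group G]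
  (R : G → Cn n → Cn n → Prop) (H : Cn n → Matrix (Fin n) (Fin n) ℂ), KEt T R H → NHC H T →
  (∀ ε : ℝ, 0 < ε → ∃ Q, TKE T R H ε Q) →
  ∃ (k : ℕ) (P : Cn n → Matrix (Fin n) (Fin n) ℂ), k ≤ n ∧ ParP k T R H P

/-- SPLIT. The twisted Kähler–Einstein metrics split. -/
def S_SPLIT : Prop := ∀ {n : ℕ} (T : Set (Cn n)) {G : Type u} [Group G]
  (R : G → Cn n → Cn n → Prop) (H : Cn n → Matrix (Fin n) (Fin n) ℂ), KEt T R H →
  ∀ (k : ℕ) (P : Cn n → Matrix (Fin n) (Fin n) ℂ), ParP k T R H P →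
  ∀ (ε : ℝ) (Q : Cn n → Matrix (Fin n) (Fin n) ℂ), 0 < ε → TKE T R H ε Q →
  ∀ x ∈ T, P x * Q x = (ε : ℂ) • (P x * H x)

/-- SMALL. For some `ε` the transversal part of `ε H Q⁻¹` has trace less than one. -/
def S_SMALL : Prop := ∀ {n : ℕ} (T : Set (Cn n)) {G : Type u} [Group G]
  (R : G → Cn n → Cn n → Prop) (H : Cn n → Matrix (Fin n) (Fin n) ℂ), KEt T R H → NHC H T →
  ∀ (k : ℕ) (P : Cn n → Matrix (Fin n) (Fin n) ℂ), ParP k T R H P →
  ∃ (ε : ℝ) (Q : Cn n → Matrix (Fin n) (Fin n) ℂ), 0 < ε ∧ TKE T R H ε Q ∧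
    ∀ x ∈ T, ε * (Matrix.trace ((1 - P x) * H x * (Q x)⁻¹)).re < 1

/-- POST. The result at the level of étale relations: a metric of the canonical bundle (`v = det Q`)
with semipositive curvature of constant corank `k`; if `k = n` then `H` is flat. -/
def S_POST : Prop := ∀ {n : ℕ} (T : Set (Cn n)) {G : Type u} [Group G]
  (R : G → Cn n → Cn n → Prop) (H : Cn n → Matrix (Fin n) (Fin n) ℂ), KEt T R H → NHC H T →
  ∃ (k : ℕ) (ε : ℝ) (Q : Cn n → Matrix (Fin n) (Fin n) ℂ), k ≤ n ∧ 0 < ε ∧ TKE T R H ε Q ∧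
    CorankK k (ld Q) T ∧ (k = n → ∀ x ∈ T, ∀ i j l m, crv H x i j l m = 0)

end Pool.Agent.Helper57.HS
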