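import Pool.Agent.Helper57.HS.DefsC
import Pool.Agent.Helper95.HS.GoalsA
import Pool.Agent.Helper15.HS.GoalsC

/-!
# HS, goals G: the Aubin–Yau theorem `S_AYG` by the continuity method, and `S_AYT`

Chain: `S_SCHL` (local Schauder) and the goals `COV` ... `SCHG` give the global Schauder estimate for
invariant functions, `LINE`, `NONL`, `ITER`, `STEP` the step of the continuity method with a step size
that does not depend on the solution, `C2E`, `CALQ`, `C2A` the a priori bounds, `PATH` the continuity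
method. The norm of `Cn n` is the sup norm; its balls are polydiscs.
-/

open Complex Metric Set Filter Topology MeasureTheory
open scoped ContDiff ComplexConjugate ComplexOrder Manifold Matrix

namespace Pool.Agent.Helper57.HS

open Pool.Agent.Helper95.Lin Pool.Agent.Helper16.Abund Pool.Agent.Helper92.Orb Pool.Agent.Helper10.SP
  Pool.Agent.Helper95.RK

universe u v

/-- CALQ. Calabi's third order estimate (qualitative form of `S_CALP`). -/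
def S_CALQ : Prop := ∀ {n : ℕ} (T : Set (Cn n)) {G : Type u} [Group G]
  (R : G → Cn n → Cn n → Prop) (H : Cn n → Matrix (Fin n) (Fin n) ℂ), KEt T R H →
  ∀ C, FunC T R C → ∀ b Λ : ℝ, 1 ≤ Λ → ∃ K : ℝ, ∀ Q η : Cn n → Matrix (Fin n) (Fin n) ℂ,
    KEt T R Q → (∀ i j, ContDiffOn ℝ ∞ (fun x => η x i j) T) → (∀ x ∈ T, rho Q x = Q x - η x) →
    (∀ x ∈ C, ∀ i j, ‖η x i j‖ ≤ b ∧ ∀ l, ‖cdM l η x i j‖ ≤ b) →
    (∀ x ∈ T, MLe (H x) ((Λ : ℂ) • Q x) ∧ MLe (Q x) ((Λ : ℂ) • H x)) →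
    ∀ x ∈ T, AQt H Q x ≤ K

/-! ## 1. Hölder calculus -/

/-- `f`, its derivative and their Hölder constants are bounded by `K` on `S`. -/
def C1B {n : ℕ} (a : ℝ) (S : Set (Cn n)) (K : ℝ) (f : Cn n → ℝ) : Prop :=
  (∀ x ∈ S, ‖f x‖ ≤ K ∧ ‖fderiv ℝ f x‖ ≤ K) ∧ HB a S K f ∧ HB a S K (fderiv ℝ f)

/-- COV. Hölder bounds on small balls give Hölder bounds on a compact set.
PROOF. Cover `C` by finitely many balls `ball x (r x / 2)`, `x ∈ F` (`IsCompact.elim_nhds_subcover`). Let `δ := min_F (r x)/2 > 0`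
(`1` if `F` is empty). For `x', x'' ∈ C` with `‖x' - x''‖ ≤ δ` and `x' ∈ ball x (r x/2)` both are in `closedBall x (r x)`. For
`‖x' - x''‖ > δ`: `‖f x' - f x''‖ ≤ 2 M ≤ 2 M δ^(-a) ‖x' - x''‖^a` (`0 ≤ M` since `‖f x'‖ ≤ M`). `K := 1 + 2 δ^(-a)`. If `M < 0`
then `F` is empty (the ball contains its centre) and `C` is empty. -/
def S_COV : Prop := ∀ (n : ℕ) (C : Set (Cn n)) (a : ℝ) (r : Cn n → ℝ), IsCompact C → 0 < a →
  (∀ x ∈ C, 0 < r x) → ∃ (F : Finset (Cn n)) (K : ℝ), 0 < K ∧ (∀ x ∈ F, x ∈ C) ∧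
  ∀ {E : Type} [NormedAddCommGroup E] (f : Cn n → E) (M : ℝ),
    (∀ x ∈ F, CB a (closedBall x (r x)) M f) → CB a C (K * M) f

/-- LMD2. The Levi matrix in terms of the second derivative.
PROOF. `cdb k v y = Dv(y) E_k + I Dv(y) F_k` with `E_k = Pi.single k 1`, `F_k = Pi.single k I` (real derivatives; `v` real, composed with
the coercion `ℝ → ℂ`), apply `cd j`: `fderiv ℝ (fun y => fderiv ℝ v y e) x e' = D2 v x e' e`. The second derivative is symmetric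
(`ContDiffAt.isSymmSndFDerivAt`, order `2 ≥ minSmoothness ℝ 2`), so `LM v x` is Hermitian. `‖E_k‖ = ‖F_k‖ = 1`. Additivity of
`fderiv`, `D2` on the open set `W` (`Filter.EventuallyEq.fderiv_eq`). -/
def S_LMD2 : Prop := ∀ {n : ℕ} (W : Set (Cn n)) (v : Cn n → ℝ), IsOpen W → ContDiffOn ℝ 2 v W →
  (∀ x ∈ W, (LM v x).IsHermitian ∧ ∀ j k, LM v x j k =
    ((D2 v x (Pi.single j 1) (Pi.single k 1) + D2 v x (Pi.single j I) (Pi.single k I) : ℝ) : ℂ) +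
    I * ((D2 v x (Pi.single j 1) (Pi.single k I) - D2 v x (Pi.single j I) (Pi.single k 1) : ℝ)
      : ℂ)) ∧
  (∀ (a K : ℝ), ∀ S ⊆ W, CB a S K (D2 v) → ∀ j k, CB a S (4 * K) fun x => LM v x j k) ∧
  ∀ w : Cn n → ℝ, ContDiffOn ℝ 2 w W → ∀ x ∈ W, ∀ c : ℝ,
    LM (fun y => v y + c * w y) x = LM v x + (c : ℂ) • LM w x ∧
    fderiv ℝ (fun y => v y + c * w y) x = fderiv ℝ v x + c • fderiv ℝ w x ∧
    D2 (fun y => v y + c * w y) x = D2 v x + c • D2 w x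

/-- HALG. Hölder algebra of matrix fields.
PROOF. `f x g x - f y g y = (f x - f y) g x + f y (g x - g y)`. (3) `Ell`: the eigenvalues are in `[lam, 1/lam]`, so `‖A x i j‖ ≤ 1/lam`
(`A = lam-bounded Hermitian`: `|A i j|² ≤ A i i A j j`), the inverse has eigenvalues in `[lam, 1/lam]` (`A⁻¹ - lam = A⁻¹ᐟ² (1 - lam A) A⁻¹ᐟ²`
or: diagonalize by the spectral theorem), `(A x)⁻¹ - (A y)⁻¹ = (A x)⁻¹ (A y - A x) (A y)⁻¹`. -/
def S_HALG : Prop := ∀ (n : ℕ) (a : ℝ) (S : Set (Cn n)), 0 < a →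
  (∀ (f g : Cn n → ℂ) (K L : ℝ), CB a S K f → CB a S L g →
    CB a S (K + L) (fun x => f x + g x) ∧ CB a S (2 * K * L) (fun x => f x * g x)) ∧
  (∀ (A B : Cn n → Matrix (Fin n) (Fin n) ℂ) (K L : ℝ), 0 ≤ K → 0 ≤ L →
    (∀ i j, CB a S K fun x => A x i j) → (∀ i j, CB a S L fun x => B x i j) →
    (∀ i j, CB a S (2 * n * K * L) fun x => (A x * B x) i j) ∧
    CB a S (2 * n ^ 2 * K * L) fun x => Matrix.trace (A x * B x)) ∧
  ∀ (A : Cn n → Matrix (Fin n) (Fin n) ℂ) (lam A₀ : ℝ), 0 < lam → 0 ≤ A₀ → Ell lam S A →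
    (∀ x ∈ S, (A x).PosDef ∧ ∀ i j, ‖A x i j‖ ≤ lam⁻¹) ∧ Ell lam S (fun x => (A x)⁻¹) ∧
    ((∀ i j, HB a S A₀ fun x => A x i j) →
      ∀ i j, CB a S (lam⁻¹ + n ^ 2 * A₀ * lam⁻¹ ^ 2) fun x => (A x)⁻¹ i j)

/-- INTG. Interpolation.
PROOF. Let `ρ > 0` be such that `closedBall x ρ ⊆ interior S'` for all `x ∈ S` (`IsCompact.exists_cthickening_subset_open`), `ρ ≤ 1`. (If
`S` is empty nothing is to be proved; otherwise `0 ≤ M, B`.) Taylor: for `x ∈ S'` with `closedBall x h ⊆ S'`, `‖e‖ ≤ 1`: `|v(x + h e) -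
v(x) - h Dv(x) e| ≤ h² B` (apply the mean value inequality twice on the convex ball), so `‖Dv(x)‖ ≤ 2 M/h + h B`. This holds for
all `x` in the `ρ/2`-neighbourhood of `S` and `h ≤ ρ/2`. For `x, y ∈ S`, `‖x - y‖ ≤ s ≤ ρ/2`: the segment is in this neighbourhood,
`|v x - v y| ≤ (2M/h + h B) ‖x - y‖ ≤ (2M/h + h B) ‖x - y‖^a` (`s ≤ 1`) and `‖Dv x - Dv y‖ ≤ B ‖x - y‖ ≤ B s^(1-a) ‖x - y‖^a`. For
`‖x - y‖ > s`: `|v x - v y| ≤ 2 M s^(-a) ‖x - y‖^a`, `‖Dv x - Dv y‖ ≤ 2 (2M/h + h B) s^(-a) ‖x - y‖^a`. Choose first `s` with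
`s^(1-a) ≤ θ/2`, then `h` with `h ≤ θ/2`, `2 h s^(-a) ≤ θ/2`. -/
def S_INTG : Prop := ∀ (n : ℕ) (S S' : Set (Cn n)) (a θ : ℝ), IsCompact S → IsCompact S' →
  S ⊆ interior S' → 0 < a → a < 1 → 0 < θ → ∃ K > 0, ∀ v : Cn n → ℝ,
  ContDiffOn ℝ 2 v (interior S') → ∀ M B : ℝ, (∀ x ∈ S', |v x| ≤ M) → (∀ x ∈ S', ‖D2 v x‖ ≤ B) →
  C1B a S (θ * B + K * M) v

/-- LOCS. The local Schauder estimate. USES: `S_SCHL` (`DefsC`), HALG, LMD2, COV.
PROOF. `δ`, `K₀` from `SCHL` (`n`, `a`, `lam`, `A₀`). Let `0 < ρ ≤ min δ 1` with `closedBall x ρ ⊆ interior S'` for all `x ∈ S`. Fix a smooth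
`χ₀ : Cn n → ℝ` (`ContDiffBump`), `0 ≤ χ₀ ≤ 1`, `χ₀ = 1` on `ball 0 (ρ/4)`, `tsupport χ₀ ⊆ closedBall 0 (3ρ/8)`; its derivatives of order `≤ 3` are
bounded. For `x₀ ∈ S` let `χ x := χ₀ (x - x₀)`, `w := χ * v` (smooth on `Cn n`, support in `closedBall x₀ (3ρ/8)`), so `D2 w` is Lipschitz and
bounded, hence Hölder. Let `π` be the componentwise retraction of `Cn n` to `closedBall x₀ (ρ/2)` (in every component the nearest point
projection of `ℂ` to the disc; it is `1`-Lipschitz), `Ã := A ∘ π`: `Ell lam univ Ã`, `HB a univ A₀`. By the product rule `tr (Ã LM w) = tr (A LM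
w) = χ (tr (A LM v) - c v) + c χ v + ∑ j k, A k j (cd j χ cdb k v + cdb k χ cd j v) + v tr (A LM χ)` on `ball x₀ (ρ/2)`, and `0` outside the
support. On `B := ball x₀ (ρ/2)` every factor satisfies a `CB a B`-bound: `χ` and its derivatives by a constant, `A k j` by `A₀`, the
first bracket by `M`, `v` and `fderiv v` by `N`. So `tr (Ã LM w)` satisfies `CB a B (K₁ (M + N))` (`HALG`), and it vanishes outside `closedBall x₀ (3ρ/8)`,
so `HB a univ (K₂ (M + N))` (for `x ∈ closedBall x₀ (3ρ/8)` and `y ∉ B`: `‖x - y‖ ≥ ρ/8`). `SCHL` for `Ã`: `HB a univ (K₀ K₂ (M + N)) (D2 w)`. `D2 w = D2 v`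
on `ball x₀ (ρ/4)`, and `D2 w = 0` at some point at distance `≤ ρ` of `x₀` (if `0 < n`; for `n = 0`, `D2 = 0`), so `‖D2 v x‖ ≤ K₃ (M + N)` there.
`COV` with `r = ρ/8`. -/
def S_LOCS : Prop := ∀ (n : ℕ) (S S' : Set (Cn n)) (a lam A₀ : ℝ), IsCompact S → IsCompact S' →
  S ⊆ interior S' → 0 < a → a < 1 → 0 < lam → 0 ≤ A₀ → ∃ K > 0,
  ∀ A : Cn n → Matrix (Fin n) (Fin n) ℂ, Ell lam S' A → (∀ i j, CB a S' A₀ fun x => A x i j) →
  ∀ v : Cn n → ℝ, ContDiffOn ℝ ∞ v (interior S') → ∀ c M N : ℝ, |c| ≤ 1 → C1B a S' N v →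
  CB a S' M (fun x => Matrix.trace (A x * LM v x) - ((c * v x : ℝ) : ℂ)) →
  CB a S (K * (M + N)) (D2 v)

/-! ## 2. Invariant functions -/

/-- `C₁` is a compact subset of `T` whose interior meets all orbits. -/
def FunN {n : ℕ} (T : Set (Cn n)) {G : Type u} (R : G → Cn n → Cn n → Prop) (C₁ : Set (Cn n)) :
    Prop := C₁ ⊆ T ∧ IsCompact C₁ ∧ ∀ x ∈ T, ∃ γ, ∃ y ∈ interior C₁, R γ x y

/-- FUNN.
PROOF. Let `C₀` be the compact set of `Et.coc`; `exists_compact_between` for `C ∪ C₀ ⊆ T`. -/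
def S_FUNN : Prop := ∀ {n : ℕ} (T : Set (Cn n)) {G : Type u} [Group G]
  (R : G → Cn n → Cn n → Prop), Et T R → ∀ C ⊆ T, IsCompact C →
  ∃ C₁, FunN T R C₁ ∧ C ⊆ interior C₁

/-- COMP. Composition with a fixed map.
PROOF. `D(v ∘ τ) x = Dv(τ x) ∘ Dτ(x)`, `D²(v ∘ τ) x e e' = D²v(τ x) (Dτ e) (Dτ e') + Dv(τ x) (D²τ(x) e e')`. `τ`, `Dτ`, `D²τ` are bounded
and Lipschitz on the compact convex ball, with some constant `L ≥ 1`; there `x ↦ Dv(τ x)` has the derivative `D²v(τ x) ∘ Dτ(x)` bounded by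
`L M`, so it is Lipschitz with constant `L M`, and `‖D²v(τ x) - D²v(τ y)‖ ≤ M ‖τ x - τ y‖^a ≤ M L^a ‖x - y‖^a`; a bounded Lipschitz
function is Hölder on the bounded ball. -/
def S_COMP : Prop := ∀ (n : ℕ) (τ : Cn n → Cn n) (U : Set (Cn n)) (x₀ : Cn n) (r a : ℝ),
  IsOpen U → closedBall x₀ r ⊆ U → ContDiffOn ℝ ∞ τ U → 0 < a → a ≤ 1 → ∃ K > 0,
  ∀ (W : Set (Cn n)) (v : Cn n → ℝ) (M : ℝ), IsOpen W → MapsTo τ U W → ContDiffOn ℝ 2 v W →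
  C2B a W M v → C2B a (closedBall x₀ r) (K * M) fun y => v (τ y)

/-- TRN. Bounds of invariant functions on one fundamental set give bounds on all compact sets.
USES: ARRB, COV, COMP.
PROOF. For `x ∈ C` choose an arrow `(γ, x, y)`, `y ∈ interior C₁`, and a local arrow `τ` on `U ∋ x` with `τ x = y` (`Et.loc`, `ARRB`;
holomorphic, so smooth), `τ U ⊆ interior C₁` after shrinking, `closedBall x (r x) ⊆ U`. `v = v ∘ τ` on `U`, so `v` and `v ∘ τ` have the same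
derivatives on `U`: `COMP` with `W = interior C₁`: `C2B a (closedBall x (r x)) (K_x M) v`. `COV` for `f = D2 v`; the bounds of `v`, `Dv` on the finitely many
balls which cover `C` (apply `COV` also to `v`, `fderiv v`, or use the covering property). -/
def S_TRN : Prop := ∀ {n : ℕ} (T : Set (Cn n)) {G : Type u} [Group G]
  (R : G → Cn n → Cn n → Prop), Et T R → ∀ C₁, FunN T R C₁ → ∀ C ⊆ T, IsCompact C →
  ∀ a : ℝ, 0 < a → a ≤ 1 → ∃ K > 0, ∀ v : Cn n → ℝ, ContDiffOn ℝ 2 v T →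
  (∀ γ x y, R γ x y → v y = v x) → ∀ M : ℝ, C2B a C₁ M v → C2B a C (K * M) v

/-- SCHG. The global Schauder estimate. USES: TRN, INTG, LOCS.
PROOF. Choose compact sets `C₁ ⊆ interior C₂`, `C₂ ⊆ interior C'`, `C' ⊆ T` (`exists_compact_between`). Constants: `K_T` of `TRN` for `C := C'`, `K_L` of
`LOCS` for `S = C₁`, `S' = C₂`, `θ > 0` with `(K_L + 1) θ K_T ≤ 1/2`, `K_I` of `INTG` for `S = C₂`, `S' = C'`, `θ`. CLAIM: `C2B a C₁ B v` implies `C2B a C₁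
(K M + B/2) v`, `K := (K_L + 1) (K_I + 1)`: by `TRN` `C2B a C' (K_T B) v`; `INTG`: `C1B a C₂ (θ K_T B + K_I M) v`; `LOCS`: `CB a C₁ (K_L (M + θ K_T B +
K_I M)) (D2 v)`; and `|v| ≤ M`. Now `v` is smooth near the compact `C₁`, so `C2B a C₁ B₀ v` for some `B₀` (near and far pairs, or `COV`); iterate:
`C2B a C₁ (2 K M + B₀/2^j) v` for all `j`; let `j → ∞`. -/
def S_SCHG : Prop := ∀ {n : ℕ} (T : Set (Cn n)) {G : Type u} [Group G]
  (R : G → Cn n → Cn n → Prop), Et T R → ∀ C₁, FunN T R C₁ → ∃ C' ⊆ T, IsCompact C' ∧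
  C₁ ⊆ interior C' ∧ ∀ a lam A₀ : ℝ, 0 < a → a < 1 → 0 < lam → 0 ≤ A₀ → ∃ K > 0,
  ∀ A : Cn n → Matrix (Fin n) (Fin n) ℂ, Ell lam C' A → (∀ i j, CB a C' A₀ fun x => A x i j) →
  ∀ v : Cn n → ℝ, InvF T R v → ∀ c M : ℝ, |c| ≤ 1 → (∀ x ∈ C', |v x| ≤ M) →
  CB a C' M (fun x => Matrix.trace (A x * LM v x) - ((c * v x : ℝ) : ℂ)) → C2B a C₁ (K * M) v

/-! ## 3. The step of the continuity method -/

/-- The metric `Q` and its bounds. -/
structure Stp {n : ℕ} (T : Set (Cn n)) {G : Type u} [Group G] (R : G → Cn n → Cn n → Prop)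
    (C' : Set (Cn n)) (a lam A₀ : ℝ) (Q : Cn n → Matrix (Fin n) (Fin n) ℂ) : Prop where
  ket : KEt T R Q
  ell : Ell lam C' Q
  hol : ∀ i j, CB a C' A₀ fun x => Q x i j

/-- The quadratic term `log det (Q + V) - log det Q - tr (Q⁻¹ V)`. -/
noncomputable def qq {n : ℕ} (Q V : Cn n → Matrix (Fin n) (Fin n) ℂ) (x : Cn n) : ℝ :=
  Real.log (Q x + V x).det.re - Real.log (Q x).det.re - (Matrix.trace ((Q x)⁻¹ * V x)).re

/-- LINE. The linear estimate. USES: MAXF, KETP (Helper95), HALG, SCHG.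
PROOF. `C'` of `SCHG`. Since `C₁ ⊆ C'` meets all orbits, `|F| ≤ M` on `T`. `|v| ≤ M` on `T`: at a maximum `x` of `v` (`MAXF`) `-LM v x` is
positive semidefinite, so `(trL Q v x).re ≤ 0` and `v x ≤ - F x ≤ M`; the same for `-v`. `trace ((Q x)⁻¹ * LM v x) - v x = F x` (the trace is real,
`KETP`). `SCHG` for `A := Q⁻¹` (`HALG`), `c = 1`. -/
def S_LINE : Prop := ∀ {n : ℕ} (T : Set (Cn n)) {G : Type u} [Group G]
  (R : G → Cn n → Cn n → Prop), Et T R → ∀ C₁, FunN T R C₁ → ∃ C' ⊆ T, IsCompact C' ∧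
  C₁ ⊆ interior C' ∧ ∀ a lam A₀ : ℝ, 0 < a → a < 1 → 0 < lam → 0 ≤ A₀ → ∃ K > 0,
  ∀ Q : Cn n → Matrix (Fin n) (Fin n) ℂ, Stp T R C' a lam A₀ Q → ∀ v F : Cn n → ℝ, InvF T R v →
  InvF T R F → (∀ x ∈ T, (trL Q v x).re - v x = F x) → ∀ M : ℝ, CB a C' M F →
  C2B a C₁ (K * M) v

/-- QEST. The quadratic term. USES: HALG.
PROOF. `r₀ := lam/(2 n + 2)`: a Hermitian matrix with entries `≤ r` is between `- n r` and `n r`, so `Q + V_s ≥ lam/2`, `Q + V_s ≤ 2/lam` for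
`V_s := V' + s (V - V')`, `s ∈ [0, 1]`, `r ≤ r₀` (`lam ≤ 1`). `d/ds log det (Q + V_s) = tr ((Q + V_s)⁻¹ (V - V'))` (Jacobi; real), so `qq Q V - qq Q V' =
∫_0^1 tr (((Q + V_s)⁻¹ - Q⁻¹) (V - V')) ds` and `(Q + V_s)⁻¹ - Q⁻¹ = - (Q + V_s)⁻¹ V_s Q⁻¹`. `HALG`: the entries of `(Q + V_s)⁻¹`, `Q⁻¹` satisfy `CB a S K₁`
with `K₁` depending on `n, lam, A₀` only, those of `V_s` `CB a S (3 r)`, so the integrand satisfies `CB a S (K r t)` for every `s`; integrate (the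
integrand is continuous in `s`). -/
def S_QEST : Prop := ∀ (n : ℕ) (a lam A₀ : ℝ), 0 < a → 0 < lam → lam ≤ 1 → 0 ≤ A₀ →
  ∃ r₀ > 0, ∃ K > 0, ∀ (S : Set (Cn n)) (Q V V' : Cn n → Matrix (Fin n) (Fin n) ℂ) (r t : ℝ),
  Ell lam S Q → (∀ i j, CB a S A₀ fun x => Q x i j) →
  (∀ x ∈ S, (V x).IsHermitian ∧ (V' x).IsHermitian) → 0 ≤ r → r ≤ r₀ → 0 ≤ t →
  (∀ i j, CB a S r (fun x => V x i j) ∧ CB a S r (fun x => V' x i j) ∧
    CB a S t (fun x => V x i j - V' x i j)) →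
  Ell (lam / 2) S (fun x => Q x + V x) ∧ CB a S (K * r * t) fun x => qq Q V x - qq Q V' x

/-- NONL. The nonlinear term for invariant functions. USES: ARRB, KETP, TRN, LMD2, QEST.
PROOF. `TRN` (`K_T`, for `C'`) and `LMD2`: the entries of `LM v`, `LM v'` satisfy `CB a C' (4 K_T ρ)`, those of the difference `CB a C' (4 K_T t)`.
`QEST` with `r = 4 K_T ρ`, if `4 K_T ρ₀ ≤ r₀`. `Q + LM v` is positive definite on `C' ⊇ C₁` and, by invariance (`KETP`: `InvH`), on `T`: an arrow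
from `x ∈ T` to `y ∈ C₁` with local map `τ`, `hermi (Y y) (Dτ a) (Dτ b) = hermi (Y x) a b`, `Dτ` is invertible. So `pert Q v` is a `KEt` metric, and
`x ↦ ld (pert Q v) x - ld Q x`, `(trL Q v x).re` are `InvF` (`KETP`). -/
def S_NONL : Prop := ∀ {n : ℕ} (T : Set (Cn n)) {G : Type u} [Group G]
  (R : G → Cn n → Cn n → Prop), Et T R → ∀ C₁, FunN T R C₁ → ∀ C' ⊆ T, IsCompact C' →
  C₁ ⊆ C' → ∀ a lam A₀ : ℝ, 0 < a → a < 1 → 0 < lam → lam ≤ 1 → 0 ≤ A₀ →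
  ∃ ρ₀ > 0, ∃ K > 0, ∀ Q : Cn n → Matrix (Fin n) (Fin n) ℂ, Stp T R C' a lam A₀ Q →
  ∀ (v v' : Cn n → ℝ) (ρ t : ℝ), InvF T R v → InvF T R v' → ρ ≤ ρ₀ → C2B a C₁ ρ v →
  C2B a C₁ ρ v' → C2B a C₁ t (fun x => v x - v' x) →
  (∀ x ∈ T, (Q x + LM v x).PosDef) ∧ Ell (lam / 2) C' (fun x => Q x + LM v x) ∧
  InvF T R (qq Q (LM v)) ∧ CB a C' (K * ρ * t) fun x => qq Q (LM v) x - qq Q (LM v') x

/-- ITER. The iteration. USES: `S_LSOL` (`DefsB`), KETP, FUNN, LINE, NONL.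
PROOF. `C₁` from `FUNN`, `C'` from `LINE` with constant `K₁`, `ρ₀`, `K₂` from `NONL`. `CB a C' M_g g` for some `M_g ≥ 0` (`g` is smooth). Choose `0 < ρ ≤
ρ₀` with `K₁ K₂ ρ ≤ 1/2` and `δ > 0` with `K₁ δ M_g ≤ ρ/2`. `v 0 := 0` (`C2B a C₁ ρ 0`). Given `v j` with `InvF`, `C2B a C₁ ρ (v j)`: `F_j := s g - qq Q (LM (v
j))` is `InvF` (`NONL`); `v (j + 1)` := the solution of `LSOL`. `CB a C' (δ M_g + K₂ ρ ρ) F_j` (`NONL` with `v' = 0`, `t = ρ`, `qq Q 0 = 0`; `LM 0 = 0`), so `C2B a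
C₁ (K₁ (δ M_g + K₂ ρ²)) (v (j+1))`, at most `ρ`. Similarly `v (j + 2) - v (j + 1)` solves the linear equation with right side `qq Q (LM (v j)) - qq Q (LM (v (j+1)))`, and
if `C2B a C₁ t (v (j+1) - v j)` then `C2B a C₁ (K₁ K₂ ρ t) (v (j+2) - v (j+1))`, at most `t/2`. -/
def S_ITER : Prop := ∀ {n : ℕ} (T : Set (Cn n)) {G : Type u} [Group G]
  (R : G → Cn n → Cn n → Prop), Et T R → ∃ C₁ C' : Set (Cn n), FunN T R C₁ ∧ C' ⊆ T ∧
  IsCompact C' ∧ C₁ ⊆ C' ∧ ∀ a lam A₀ : ℝ, 0 < a → a < 1 → 0 < lam → lam ≤ 1 → 0 ≤ A₀ →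
  ∀ g, InvF T R g → ∃ δ > 0, ∀ Q : Cn n → Matrix (Fin n) (Fin n) ℂ, Stp T R C' a lam A₀ Q →
  ∀ s : ℝ, |s| ≤ δ → ∃ (v : ℕ → Cn n → ℝ) (ρ : ℝ), (∀ j, InvF T R (v j)) ∧ (∀ x, v 0 x = 0) ∧
  (∀ j, (∀ x ∈ T, (trL Q (v (j + 1)) x).re - v (j + 1) x = s * g x - qq Q (LM (v j)) x) ∧
    (∀ x ∈ T, (Q x + LM (v j) x).PosDef) ∧ Ell (lam / 2) C' (fun x => Q x + LM (v j) x) ∧
    C2B a C₁ (ρ * (1 / 2) ^ j) (fun x => v (j + 1) x - v j x))

/-- LIMC. Limits of `C²` functions.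
PROOF. The series `∑ (v (j+1) - v j)`, `∑ D(v (j+1) - v j)`, `∑ D2(v (j+1) - v j)` converge uniformly on compact sets; the limits `w`, `w'`, `w''` of `v j`,
`D(v j)`, `D2(v j)` satisfy `Dw = w'`, `Dw' = w''` on `T` (`hasFDerivAt_of_tendstoUniformlyOnFilter` or `hasFDerivAt_of_tendstoLocallyUniformlyOn`), `w''`
is continuous. The bounds: sum the geometric series. -/
def S_LIMC : Prop := ∀ {n : ℕ} (T : Set (Cn n)) (a : ℝ), IsOpen T → 0 < a →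
  ∀ v : ℕ → Cn n → ℝ, (∀ j, ContDiffOn ℝ ∞ (v j) T) → (∀ x, v 0 x = 0) →
  (∀ C ⊆ T, IsCompact C → ∃ K, ∀ j, C2B a C (K * (1 / 2) ^ j) (fun x => v (j + 1) x - v j x)) →
  ∃ w : Cn n → ℝ, ContDiffOn ℝ 2 w T ∧ (∀ x ∈ T, Tendsto (fun j => v j x) atTop (𝓝 (w x)) ∧
    Tendsto (fun j => D2 (v j) x) atTop (𝓝 (D2 w x))) ∧
  ∀ C ⊆ T, IsCompact C → ∃ K, C2B a C K w

/-- STEP. The step of the continuity method. USES: ARRB, KETP, `S_REGN` (`DefsC`), ITER, TRN, LMD2, LIMC.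
PROOF. `C'` of `ITER`, `Q x := X x + LM u x`, `v j` from `ITER`. By `TRN` the hypothesis of `LIMC` holds; let `w` be the limit. `LM (v j) x → LM w x` for `x ∈ T`
(`LMD2`). `Q + LM w` is positive definite on `T`: for `x ∈ T` there is an arrow to `y ∈ C₁ ⊆ C'` with local map `τ`; `hermi (Y_j x) a a = hermi (Y_j y) (Dτ a) (Dτ a) ≥
(lam/2) ∑ |(Dτ a)_i|²` for `Y_j := Q + LM (v j)` (`InvH`, `KETP`; `Ell (lam/2) C'`), let `j → ∞`. The equation in the limit (`Real.log` and the inverse are continuous at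
positive definite matrices): `(trL Q w x).re - w x = s g x - qq Q (LM w) x`, i.e. `log det (Q + LM w) = log det Q + w + s g = (u + w) + (f + s g) + log det H`. So `u' := u + w`
satisfies the hypotheses of `REGN` (`X + LM u' = Q + LM w` by `LMD2`), so it is smooth; it is invariant (limit of invariant functions); `KETP`: `X + LM u'` is a `KEt`
metric. -/
def S_STEP : Prop := ∀ {n : ℕ} (T : Set (Cn n)) {G : Type u} [Group G]
  (R : G → Cn n → Cn n → Prop) (H X : Cn n → Matrix (Fin n) (Fin n) ℂ), KEt T R H → KEt T R X →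
  ∃ C' ⊆ T, IsCompact C' ∧ ∀ a lam A₀ : ℝ, 0 < a → a < 1 → 0 < lam → lam ≤ 1 → 0 ≤ A₀ →
  ∀ g, InvF T R g → ∃ δ > 0, ∀ f u : Cn n → ℝ, InvF T R f → MASol T R H X f u →
  Stp T R C' a lam A₀ (fun x => X x + LM u x) → ∀ s : ℝ, |s| ≤ δ →
  ∃ u', MASol T R H X (fun x => f x + s * g x) u'

/-! ## 4. The continuity method -/

/-- C2A. From the third order estimate to Hölder bounds. USES: COV, MCAL (Helper15).
PROOF. Choose a compact `C''` with `C ⊆ interior C''`, `C'' ⊆ T`, and `lam ∈ (0, 1]` with `lam ≤ Q x ≤ 1/lam` for `x ∈ C''` (`H` has eigenvalues in a compact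
subset of `(0, ∞)` on `C''`). `A_k := Adf H Q k x`: `AQt = ∑ k l, Q⁻¹ l k tr (A_k Q A_lᴴ Q⁻¹) ≥ lam ∑ k, tr (A_k Q A_kᴴ Q⁻¹) ≥ lam³ ∑ k i j, |A_k i j|²` (the matrix
`G k l := tr (A_k Q A_lᴴ Q⁻¹)` is positive semidefinite). So the entries of `A_k`, and of `cdM k Q = (A_k + Gam H k) Q` are bounded on `C''`, also `cdbM k Q = (cdM
k Q)ᴴ`, so `‖fderiv ℝ (fun x => Q x i j) x‖ ≤ L` on `C''` (`fderiv f x e = ½ ∑ (e_k cd k f + conj e_k cdb k f)`). For `x ∈ C` take `r x ≤ 1/2` with `closedBall x (r x) ⊆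
C''`: there `Q i j` is Lipschitz with constant `L`, so Hölder with constant `L` (distances `≤ 1`). `COV`. -/
def S_C2A : Prop := ∀ {n : ℕ} (T : Set (Cn n)) {G : Type u} [Group G]
  (R : G → Cn n → Cn n → Prop) (H : Cn n → Matrix (Fin n) (Fin n) ℂ), KEt T R H →
  ∀ C ⊆ T, IsCompact C → ∀ a Λ K : ℝ, 0 < a → a < 1 → 1 ≤ Λ → ∃ lam A₀ : ℝ, 0 < lam ∧
  lam ≤ 1 ∧ 0 ≤ A₀ ∧ ∀ Q : Cn n → Matrix (Fin n) (Fin n) ℂ, KEt T R Q →
  (∀ x ∈ T, MLe (H x) ((Λ : ℂ) • Q x) ∧ MLe (Q x) ((Λ : ℂ) • H x)) →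
  (∀ x ∈ T, AQt H Q x ≤ K) → Stp T R C a lam A₀ Q

/-! PATH (the goal is `S_PATH` of `DefsC`). USES: `S_C2E`, `S_CALQ`, MCAL, RHOI (Helper15), C2A, STEP.
PROOF. `C` a compact fundamental set (`Et.coc`), `f_t := f₀ + t (f₁ - f₀)`, `t ∈ [0, 1]`; `b` bounds `|f_t|`, `‖LM f_t i j‖` and, for `η_t := X - LM f_t - rho H`,
`‖η_t i j‖`, `‖cdM l η_t i j‖` on `C` for all `t ∈ [0, 1]` (affine in `t`, smooth). `Λ` from `C2E`, `K` from `CALQ`, `C'` from `STEP`, `lam`, `A₀` from `C2A` with `a = 1/2`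
and `C := C'`, `δ` from `STEP` for `g := f₁ - f₀`. If `u` solves the equation for `f_t`, `t ∈ [0, 1]`, then `Q := X + LM u` satisfies the bounds with `Λ` (`C2E`),
`rho Q = LM (u + f_t + ld H) = Q - η_t` (logarithm of the equation), `CALQ` and `C2A` give `Stp`, so there are solutions for `f_{t + s}`, `|s| ≤ δ`. Induction over `t = k/N`,
`1/N ≤ δ`. -/

/-! AYG (the goal is `S_AYG` of `DefsB`). USES: KETP, `S_PATH`.
PROOF. `f₀ := ld X - ld H` is `InvF` (`KETP`) and `u = 0` is a solution for `f₀` (`LM 0 = 0`; `exp (ld X) = det X`). `PATH`. -/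

/-! AYT (the goal is `S_AYT` of `Defs`). USES: `S_AYG`, UB, SGN, IFN, RHOI (Helper15), TRC, KETP, CMP (Helper95).
PROOF. `n = 0`: `Q := H` works (all matrices are empty). Let `S` be the set of `ε > 0` for which a `TKE` metric exists. (1) `S ⊇ [ε₀, ∞)` for some `ε₀ > 0`: on the compact set
`C` of `Et.coc` `rho H + ε₀ H` is positive definite for large `ε₀`, by invariance (`RHOI`: `rho H` is an invariant closed form) on `T`; for `ε ≥ ε₀` put `X := rho H + ε H`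
(`KEt T R X`); `AYG` with `f = 0`: `Q := X + LM u`, `ld Q = u + ld H`, `rho Q = LM u + rho H = Q - X + rho H = Q - ε H`. (2) If `ε ∈ S` and `(1 - 1/(2n)) ε ≤ ε' ≤ ε` then `ε' ∈ S`: let
`Q` be the metric for `ε`. `UB` with `η = ε H`, `c = ε` (`HerT` from `KEt`, `RBC` from `SGN`): `tr (H Q⁻¹) ≤ n/ε`, so all eigenvalues of `Q^{-1/2} H Q^{-1/2}` are `≤ n/ε`, `Q ≥ (ε/n) H`, and `X := Q -
(ε - ε') H ≥ (ε/n - ε/(2n)) H > 0` is a `KEt` metric. `AYG` for the metrics `Q` (in the place of `H`), `X` and `f = 0`: `Q' := X + LM u`, `ld Q' = u + ld Q`, `rho Q' = LM u + Q - ε H = Q' - X + Q - ε H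
= Q' - ε' H`. (3) By induction on `m`, `S ⊇ [(1 - 1/(2n))^m ε₀, ∞)`. -/

end Pool.Agent.Helper57.HS
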