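import Pool.Agent.Helper57.HS.GoalsG

/-! # COV and FUNN -/

open Complex Metric Set Filter Topology MeasureTheory
open scoped ContDiff ComplexConjugate ComplexOrder Manifold Matrix

namespace Pool.Agent.Helper57.HS

open Pool.Agent.Helper95.Lin Pool.Agent.Helper16.Abund Pool.Agent.Helper92.Orb Pool.Agent.Helper10.SP
  Pool.Agent.Helper95.RK

universe u

theorem funn : S_FUNN.{u} := by
  intro n T G _ R hT C hCT hC
  obtain ⟨C₀, hC₀T, hC₀, hco⟩ := hT.coc
  obtain ⟨C₁, hC₁, h1, h2⟩ := exists_compact_between (hC.union hC₀) hT.isOpen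
    (union_subset hCT hC₀T)
  refine ⟨C₁, ⟨h2, hC₁, fun x hx => ?_⟩, subset_union_left.trans h1⟩
  obtain ⟨γ, y, hy, h⟩ := hco x hx
  exact ⟨γ, y, h1 (Or.inr hy), h⟩

theorem cov : S_COV := by
  classical
  intro n C a r hC ha hr
  obtain ⟨F, hFC, hF⟩ := hC.elim_nhds_subcover (fun x => if x ∈ C then ball x (r x / 2) else univ)
    (fun x hx => by
      simp only [hx, if_true]
      exact ball_mem_nhds x (half_pos (hr x hx)))
  have hcov : ∀ y ∈ C, ∃ x ∈ F, y ∈ ball x (r x / 2) := by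
    intro y hy
    obtain ⟨x, hx, hyx⟩ := mem_iUnion₂.1 (hF hy)
    rw [if_pos (hFC x hx)] at hyx
    exact ⟨x, hx, hyx⟩
  obtain ⟨δ, hδ, hδF⟩ : ∃ δ : ℝ, 0 < δ ∧ ∀ x ∈ F, δ ≤ r x / 2 := by
    rcases F.eq_empty_or_nonempty with h | h
    · exact ⟨1, one_pos, fun x hx => by simp [h] at hx⟩
    · obtain ⟨x₀, hx₀, hmin⟩ := F.exists_min_image (fun x => r x / 2) h
      exact ⟨r x₀ / 2, half_pos (hr x₀ (hFC x₀ hx₀)), hmin⟩
  refine ⟨F, 1 + 2 * (δ ^ a)⁻¹, by positivity, hFC, ?_⟩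
  intro E _ f M hf
  have hda : 0 < δ ^ a := Real.rpow_pos_of_pos hδ a
  have hbd : ∀ y ∈ C, ‖f y‖ ≤ M := by
    intro y hy
    obtain ⟨x, hx, hyx⟩ := hcov y hy
    refine (hf x hx).1 y ?_
    have h1 := hr x (hFC x hx)
    rw [mem_closedBall]
    rw [mem_ball] at hyx
    linarith
  have hM : ∀ y ∈ C, 0 ≤ M := fun y hy => (norm_nonneg _).trans (hbd y hy)
  constructor
  · intro y hy
    have h0 := hM y hy
    have h1 := hbd y hy
    have : 0 ≤ 2 * (δ ^ a)⁻¹ * M := by positivity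
    calc ‖f y‖ ≤ M := h1
      _ ≤ (1 + 2 * (δ ^ a)⁻¹) * M := by linarith
  · intro y hy z hz
    have h0 := hM y hy
    rcases le_or_gt ‖y - z‖ δ with hle | hgt
    · obtain ⟨x, hx, hyx⟩ := hcov y hy
      have h1 := hδF x hx
      rw [mem_ball, dist_eq_norm] at hyx
      have hy' : y ∈ closedBall x (r x) := by
        rw [mem_closedBall, dist_eq_norm]
        linarith [hr x (hFC x hx)]
      have hz' : z ∈ closedBall x (r x) := by
        rw [mem_closedBall, dist_eq_norm]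
        calc ‖z - x‖ = ‖(y - x) - (y - z)‖ := by congr 1; abel
          _ ≤ ‖y - x‖ + ‖y - z‖ := norm_sub_le _ _
          _ ≤ r x := by linarith
      refine ((hf x hx).2 y hy' z hz').trans ?_
      have h2 : 0 ≤ ‖y - z‖ ^ a := Real.rpow_nonneg (norm_nonneg _) _
      have : 0 ≤ 2 * (δ ^ a)⁻¹ * M := by positivity
      exact mul_le_mul_of_nonneg_right (by linarith) h2
    · have h2 : δ ^ a ≤ ‖y - z‖ ^ a := Real.rpow_le_rpow hδ.le hgt.le ha.le
      have h3 : 1 ≤ (δ ^ a)⁻¹ * ‖y - z‖ ^ a := by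
        rw [inv_mul_eq_div, one_le_div hda]
        exact h2
      have h4 : 0 ≤ ‖y - z‖ ^ a := hda.le.trans h2
      calc ‖f y - f z‖ ≤ ‖f y‖ + ‖f z‖ := norm_sub_le _ _
        _ ≤ 2 * M * 1 := by linarith [hbd y hy, hbd z hz]
        _ ≤ 2 * M * ((δ ^ a)⁻¹ * ‖y - z‖ ^ a) := mul_le_mul_of_nonneg_left h3 (by positivity)
        _ = 2 * (δ ^ a)⁻¹ * M * ‖y - z‖ ^ a := by ring
        _ ≤ (1 + 2 * (δ ^ a)⁻¹) * M * ‖y - z‖ ^ a := by
          refine mul_le_mul_of_nonneg_right ?_ h4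
          linarith

end Pool.Agent.Helper57.HS
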