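import Pool.Agent.Helper57.HS.GoalsG

/-! # LMD2: the Levi matrix in terms of the second derivative -/

open Complex Metric Set Filter Topology MeasureTheory
open scoped ContDiff ComplexConjugate ComplexOrder Manifold Matrix

namespace Pool.Agent.Helper57.HS

open Pool.Agent.Helper95.Lin Pool.Agent.Helper16.Abund Pool.Agent.Helper92.Orb Pool.Agent.Helper10.SP
  Pool.Agent.Helper95.RK

variable {n : ℕ}

/-- The entries of the Levi matrix of a bilinear form. -/
noncomputable def lmB (j k : Fin n) (B : Cn n →L[ℝ] Cn n →L[ℝ] ℝ) : ℂ :=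
  ((B (Pi.single j 1) (Pi.single k 1) + B (Pi.single j I) (Pi.single k I) : ℝ) : ℂ) +
    I * ((B (Pi.single j 1) (Pi.single k I) - B (Pi.single j I) (Pi.single k 1) : ℝ) : ℂ)

theorem lmB_sub (j k : Fin n) (B B' : Cn n →L[ℝ] Cn n →L[ℝ] ℝ) :
    lmB j k (B - B') = lmB j k B - lmB j k B' := by
  simp only [lmB, _root_.sub_apply]
  push_cast
  ring

theorem lmB_add_smul (j k : Fin n) (c : ℝ) (B B' : Cn n →L[ℝ] Cn n →L[ℝ] ℝ) :
    lmB j k (B + c • B') = lmB j k B + (c : ℂ) * lmB j k B' := by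
  simp only [lmB, _root_.add_apply, _root_.smul_apply, smul_eq_mul]
  push_cast
  ring

theorem norm_single_one' (j : Fin n) : ‖(Pi.single j 1 : Cn n)‖ = 1 := by
  rw [Pi.norm_single, norm_one]

theorem norm_single_I (j : Fin n) : ‖(Pi.single j I : Cn n)‖ = 1 := by
  rw [Pi.norm_single, norm_I]

theorem bil_le (B : Cn n →L[ℝ] Cn n →L[ℝ] ℝ) (e e' : Cn n) (h : ‖e‖ = 1) (h' : ‖e'‖ = 1) :
    |B e e'| ≤ ‖B‖ := by
  have h1 := (B e).le_opNorm e'
  have h2 := B.le_opNorm e
  rw [h', mul_one] at h1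
  rw [h, mul_one] at h2
  exact (Real.norm_eq_abs _ ▸ h1).trans h2

theorem norm_lmB_le (j k : Fin n) (B : Cn n →L[ℝ] Cn n →L[ℝ] ℝ) : ‖lmB j k B‖ ≤ 4 * ‖B‖ := by
  have a1 := bil_le B _ _ (norm_single_one' j) (norm_single_one' k)
  have a2 := bil_le B _ _ (norm_single_I j) (norm_single_I k)
  have a3 := bil_le B _ _ (norm_single_one' j) (norm_single_I k)
  have a4 := bil_le B _ _ (norm_single_I j) (norm_single_one' k)
  unfold lmB
  refine (norm_add_le _ _).trans ?_
  rw [norm_mul, norm_I, one_mul, Complex.norm_real, Complex.norm_real, Real.norm_eq_abs,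
    Real.norm_eq_abs]
  refine (add_le_add (abs_add_le _ _) (abs_sub _ _)).trans ?_
  linarith

theorem hasFDerivAt_fderiv {W : Set (Cn n)} {v : Cn n → ℝ} (hW : IsOpen W)
    (hv : ContDiffOn ℝ 2 v W) {x : Cn n} (hx : x ∈ W) : HasFDerivAt (fderiv ℝ v) (D2 v x) x := by
  have h1 : ContDiffOn ℝ 1 (fderiv ℝ v) W := hv.fderiv_of_isOpen hW (by norm_num)
  exact ((h1.differentiableOn (by norm_num)).differentiableAt (hW.mem_nhds hx)).hasFDerivAt

theorem LM_eq_lmB {W : Set (Cn n)} {v : Cn n → ℝ} (hW : IsOpen W)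
    (hv : ContDiffOn ℝ 2 v W) {x : Cn n} (hx : x ∈ W) (j k : Fin n) :
    LM v x j k = lmB j k (D2 v x) := by
  have hdv : ∀ y ∈ W, DifferentiableAt ℝ v y := fun y hy =>
    (hv.differentiableOn (by norm_num)).differentiableAt (hW.mem_nhds hy)
  have h1 : ∀ y ∈ W, cdb k (fun y => (v y : ℂ)) y =
      ((fderiv ℝ v y (Pi.single k 1) : ℝ) : ℂ) + I * ((fderiv ℝ v y (Pi.single k I) : ℝ) : ℂ) := by
    intro y hy
    have h2 : HasFDerivAt (fun y => (v y : ℂ)) (Complex.ofRealCLM.comp (fderiv ℝ v y)) y :=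
      Complex.ofRealCLM.hasFDerivAt.comp y (hdv y hy).hasFDerivAt
    unfold cdb
    rw [h2.fderiv]
    rfl
  have hd := hasFDerivAt_fderiv hW hv hx
  have hp : ∀ w : Cn n, HasFDerivAt (fun y => ((fderiv ℝ v y w : ℝ) : ℂ))
      (Complex.ofRealCLM.comp ((ContinuousLinearMap.apply ℝ ℝ w).comp (D2 v x))) x := fun w =>
    Complex.ofRealCLM.hasFDerivAt.comp x
      ((ContinuousLinearMap.apply ℝ ℝ w).hasFDerivAt.comp x hd)
  have hq := (hp (Pi.single k 1)).add ((hp (Pi.single k I)).const_mul I)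
  have h3 : cdb k (fun y => (v y : ℂ)) =ᶠ[𝓝 x] fun y =>
      ((fderiv ℝ v y (Pi.single k 1) : ℝ) : ℂ) + I * ((fderiv ℝ v y (Pi.single k I) : ℝ) : ℂ) := by
    filter_upwards [hW.mem_nhds hx] with y hy
    exact h1 y hy
  have h4 : fderiv ℝ (cdb k (fun y => (v y : ℂ))) x =
      Complex.ofRealCLM.comp ((ContinuousLinearMap.apply ℝ ℝ (Pi.single k 1)).comp (D2 v x)) +
      I • Complex.ofRealCLM.comp ((ContinuousLinearMap.apply ℝ ℝ (Pi.single k I)).comp (D2 v x)) := by
    rw [h3.fderiv_eq]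
    exact hq.fderiv
  simp only [LM, Matrix.of_apply]
  unfold cd
  rw [h4]
  simp only [_root_.add_apply, _root_.smul_apply,
    ContinuousLinearMap.comp_apply, ContinuousLinearMap.apply_apply, Complex.ofRealCLM_apply,
    smul_eq_mul, lmB]
  push_cast
  linear_combination (- ((D2 v x (Pi.single j I) (Pi.single k I) : ℝ) : ℂ)) * Complex.I_mul_I

theorem lmd2 : S_LMD2 := by
  intro n W v hW hv
  refine ⟨fun x hx => ⟨?_, fun j k => LM_eq_lmB hW hv hx j k⟩, ?_, ?_⟩
  · have hs : IsSymmSndFDerivAt ℝ v x :=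
      (hv.contDiffAt (hW.mem_nhds hx)).isSymmSndFDerivAt (by simp)
    have hs' : ∀ e e', D2 v x e e' = D2 v x e' e := fun e e' => hs e e'
    ext j k
    rw [Matrix.conjTranspose_apply, LM_eq_lmB hW hv hx, LM_eq_lmB hW hv hx]
    simp only [lmB]
    rw [hs' (Pi.single j 1) (Pi.single k 1), hs' (Pi.single j I) (Pi.single k I),
      hs' (Pi.single j 1) (Pi.single k I), hs' (Pi.single j I) (Pi.single k 1)]
    simp only [star_def, map_add, map_mul, conj_I, conj_ofReal]
    push_cast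
    ring
  · intro a K S hSW h j k
    constructor
    · intro x hx
      have e := LM_eq_lmB hW hv (hSW hx) j k
      show ‖LM v x j k‖ ≤ 4 * K
      rw [e]
      exact (norm_lmB_le j k _).trans (mul_le_mul_of_nonneg_left (h.1 x hx) (by norm_num))
    · intro x hx y hy
      have e1 := LM_eq_lmB hW hv (hSW hx) j k
      have e2 := LM_eq_lmB hW hv (hSW hy) j k
      show ‖LM v x j k - LM v y j k‖ ≤ 4 * K * ‖x - y‖ ^ a
      rw [e1, e2, ← lmB_sub, mul_assoc]
      exact (norm_lmB_le j k _).trans (mul_le_mul_of_nonneg_left (h.2 x hx y hy) (by norm_num))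
  · intro w hw x hx c
    have hvw : ContDiffOn ℝ 2 (fun y => v y + c * w y) W := hv.add (contDiffOn_const.mul hw)
    have h1 : ∀ y ∈ W, fderiv ℝ (fun y => v y + c * w y) y = fderiv ℝ v y + c • fderiv ℝ w y := by
      intro y hy
      have h2 := ((hv.differentiableOn (by norm_num)).differentiableAt (hW.mem_nhds hy))
      have h3 := ((hw.differentiableOn (by norm_num)).differentiableAt (hW.mem_nhds hy))
      exact (h2.hasFDerivAt.add (h3.hasFDerivAt.const_mul c)).fderiv
    have h2 : D2 (fun y => v y + c * w y) x = D2 v x + c • D2 w x := by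
      have h3 : fderiv ℝ (fun y => v y + c * w y) =ᶠ[𝓝 x] fun y =>
          fderiv ℝ v y + c • fderiv ℝ w y := by
        filter_upwards [hW.mem_nhds hx] with y hy
        exact h1 y hy
      unfold D2
      rw [h3.fderiv_eq]
      exact ((hasFDerivAt_fderiv hW hv hx).add
        ((hasFDerivAt_fderiv hW hw hx).const_smul c)).fderiv
    refine ⟨?_, h1 x hx, h2⟩
    ext j k
    rw [LM_eq_lmB hW hvw hx, h2, lmB_add_smul, Matrix.add_apply, Matrix.smul_apply, smul_eq_mul,
      LM_eq_lmB hW hv hx, LM_eq_lmB hW hw hx]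

end Pool.Agent.Helper57.HS
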