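import Pool.Agent.Helper57.HS.GoalsG
import Pool.Agent.Helper45.HS.MatC
import Pool.Agent.Helper56.HS.SBG

/-! # PATH and AYG: the continuity method -/

open Complex Metric Set Filter Topology MeasureTheory
open scoped ContDiff ComplexConjugate ComplexOrder Manifold Matrix

namespace Pool.Agent.Helper57.HS

open Pool.Agent.Helper95.Lin Pool.Agent.Helper16.Abund Pool.Agent.Helper92.Orb Pool.Agent.Helper10.SP
  Pool.Agent.Helper95.RK Pool.Agent.Helper45.HS

universe u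

section

variable {n : ℕ}

/-- A common bound for the entries of a continuous matrix field on a compact set. -/
theorem mat_bound {C : Set (Cn n)} (hC : IsCompact C) {Z : Cn n → Matrix (Fin n) (Fin n) ℂ}
    (hZ : ∀ i j, ContinuousOn (fun x => Z x i j) C) :
    ∃ b : ℝ, 0 ≤ b ∧ ∀ x ∈ C, ∀ i j, ‖Z x i j‖ ≤ b := by
  have h : ∀ i j, ∃ b : ℝ, ∀ x ∈ C, ‖Z x i j‖ ≤ b := fun i j =>
    hC.exists_bound_of_continuousOn (hZ i j)
  choose b hb using h
  refine ⟨∑ i, ∑ j, |b i j|, Finset.sum_nonneg fun i _ => Finset.sum_nonneg fun j _ => abs_nonneg _,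
    fun x hx i j => ?_⟩
  calc ‖Z x i j‖ ≤ b i j := hb i j x hx
    _ ≤ |b i j| := le_abs_self _
    _ ≤ ∑ j, |b i j| := Finset.single_le_sum (f := fun j => |b i j|)
        (fun j _ => abs_nonneg _) (Finset.mem_univ j)
    _ ≤ ∑ i, ∑ j, |b i j| := Finset.single_le_sum (f := fun i => ∑ j, |b i j|)
        (fun i _ => Finset.sum_nonneg fun j _ => abs_nonneg _) (Finset.mem_univ i)

theorem smM_continuousOn {W C : Set (Cn n)} {Z : Cn n → Matrix (Fin n) (Fin n) ℂ} (h : SmM Z W)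
    (hC : C ⊆ W) (i j : Fin n) : ContinuousOn (fun x => Z x i j) C :=
  (h i j).continuousOn.mono hC

theorem cdM_smul_const {W : Set (Cn n)} (hW : IsOpen W) {x : Cn n} (hx : x ∈ W)
    {Y : Cn n → Matrix (Fin n) (Fin n) ℂ} (hY : SmM Y W) (t : ℂ) (k : Fin n) :
    cdM k (fun y => t • Y y) x = t • cdM k Y x := by
  have h := cdM_smul hW hx (f := fun _ => t) contDiffOn_const hY k
  rw [(cd_const'' t k).1, zero_smul, zero_add] at h
  exact h

/-- The equation in logarithmic form. -/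
theorem MASol.log_eq {T : Set (Cn n)} {G : Type u} [Group G] {R : G → Cn n → Cn n → Prop}
    {H X : Cn n → Matrix (Fin n) (Fin n) ℂ} {f v : Cn n → ℝ} (hH : KEt T R H)
    (h : MASol T R H X f v) {x : Cn n} (hx : x ∈ T) :
    ld (fun y => X y + LM v y) x = v x + f x + ld H x := by
  have h1 := h.2.2 x hx
  have h2 : 0 < (H x).det.re := Pool.Agent.Helper56.HS.det_pos' (hH.posDef x hx)
  unfold ld
  rw [h1, Real.log_mul (Real.exp_ne_zero _) h2.ne', Real.log_exp]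

end

theorem path (hWIRT : S_WIRT) (hLMF : S_LMF) (hC2E : S_C2E.{u}) (hCALQ : S_CALQ.{u})
    (hRHOI : Pool.Agent.Helper15.HS.S_RHOI.{u}) (hC2A : S_C2A.{u})
    (hSTEP : S_STEP.{u}) : S_PATH.{u} := by
  intro n T G _ R H X hH hX f₀ f₁ hf₀ hf₁ h0
  have hT := hH.et.isOpen
  obtain ⟨C, hCT, hCc, hC⟩ := hH.et.coc
  have hFC : FunC T R C := ⟨hCT, hCc, hC⟩
  set g : Cn n → ℝ := fun x => f₁ x - f₀ x with hg
  have hgI : InvF T R g := ⟨hf₁.1.sub hf₀.1, fun γ x y h => by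
    simp only [hg, hf₁.2 γ x y h, hf₀.2 γ x y h]⟩
  let ft : ℝ → Cn n → ℝ := fun t x => f₀ x + t * g x
  have hftI : ∀ t, InvF T R (ft t) := fun t =>
    ⟨hf₀.1.add (contDiffOn_const.mul hgI.1), fun γ x y h => by
      simp only [ft, hgI.2 γ x y h, hf₀.2 γ x y h]⟩
  -- regularity of the ingredients
  have hRH := hRHOI T R H hH.et ⟨hH.posDef, hH.smooth, hH.inv⟩
  have hldH : ContDiffOn ℝ ∞ (ld H) T := hRH.2.2.1
  have hrhoS : SmM (rho H) T := hRH.1.smooth
  have hXS : SmM X T := hX.smooth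
  have hL0S : SmM (LM f₀) T := (hLMF T hT f₀ hf₀.1).1
  have hLgS : SmM (LM g) T := (hLMF T hT g hgI.1).1
  have hLft : ∀ t, ∀ x ∈ T, LM (ft t) x = LM f₀ x + (t : ℂ) • LM g x := by
    intro t x hx
    have h1 : LM (fun y => f₀ y + t * g y) x = LM f₀ x + LM (fun y => t * g y) x :=
      Pool.Agent.Helper56.HS.LM_add hWIRT hT hf₀.1 (contDiffOn_const.mul hgI.1) hx
    have h2 : LM (fun y => t * g y) x = (t : ℂ) • LM g x := by
      ext j k
      have hgc : ContDiffOn ℝ ∞ (fun y => (g y : ℂ)) T :=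
        Complex.ofRealCLM.contDiff.comp_contDiffOn hgI.1
      have hw := hWIRT T hT (fun _ => (t : ℂ)) (fun y => (g y : ℂ)) contDiffOn_const hgc
      have hw2 := hWIRT T hT (fun _ => (t : ℂ)) (cdb k fun y => (g y : ℂ)) contDiffOn_const
        ((hWIRT T hT _ _ hgc hgc).1 k).2
      simp only [LM, Matrix.of_apply, Matrix.smul_apply, smul_eq_mul]
      have e1 : cd j (cdb k fun y => ((t * g y : ℝ) : ℂ)) x =
          cd j (fun y => (t : ℂ) * cdb k (fun y => (g y : ℂ)) y) x := by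
        refine Pool.Agent.Helper56.HS.cd_congr j ?_
        filter_upwards [hT.mem_nhds hx] with y hy
        have e2 := (hw.2.2.1 k y hy).2
        have e3 : (fun y => ((t * g y : ℝ) : ℂ)) = fun y => (t : ℂ) * (g y : ℂ) := by
          funext z; push_cast; rfl
        rw [e3, e2, (cd_const'' (t : ℂ) k).2, mul_zero, add_zero]
      rw [e1, (hw2.2.2.1 j x hx).1, (cd_const'' (t : ℂ) j).1, mul_zero, add_zero]
    rw [← h2]
    exact h1
  -- the right side of the equation for the Ricci form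
  let A : Cn n → Matrix (Fin n) (Fin n) ℂ := fun x => X x - LM f₀ x - rho H x
  have hAS : SmM A T := (hXS.sub hL0S).sub hrhoS
  let η : ℝ → Cn n → Matrix (Fin n) (Fin n) ℂ := fun t x => A x - (t : ℂ) • LM g x
  have hηS : ∀ t, SmM (η t) T := fun t => hAS.sub (SmM.smul contDiffOn_const hLgS)
  -- bounds
  obtain ⟨b1, hb10, hb1⟩ := mat_bound hCc (smM_continuousOn hAS hCT)
  obtain ⟨b2, hb20, hb2⟩ := mat_bound hCc (smM_continuousOn hLgS hCT)
  obtain ⟨b3, hb30, hb3⟩ := mat_bound hCc (smM_continuousOn hL0S hCT)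
  have hb4' : ∀ l : Fin n, ∃ b : ℝ, 0 ≤ b ∧ ∀ x ∈ C, ∀ i j, ‖cdM l A x i j‖ ≤ b := fun l =>
    mat_bound hCc (smM_continuousOn (hAS.cdM hT l) hCT)
  choose b4 hb40 hb4 using hb4'
  have hb5' : ∀ l : Fin n, ∃ b : ℝ, 0 ≤ b ∧ ∀ x ∈ C, ∀ i j, ‖cdM l (LM g) x i j‖ ≤ b := fun l =>
    mat_bound hCc (smM_continuousOn (hLgS.cdM hT l) hCT)
  choose b5 hb50 hb5 using hb5'
  obtain ⟨b6, hb6⟩ := hCc.exists_bound_of_continuousOn (hf₀.1.continuousOn.mono hCT)
  obtain ⟨b7, hb7⟩ := hCc.exists_bound_of_continuousOn (hgI.1.continuousOn.mono hCT)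
  let b : ℝ := b1 + b2 + b3 + (∑ l, b4 l) + (∑ l, b5 l) + |b6| + |b7|
  have hs4 : 0 ≤ ∑ l, b4 l := Finset.sum_nonneg fun l _ => hb40 l
  have hs5 : 0 ≤ ∑ l, b5 l := Finset.sum_nonneg fun l _ => hb50 l
  have hl4 : ∀ l, b4 l ≤ ∑ l, b4 l := fun l =>
    Finset.single_le_sum (f := b4) (fun j _ => hb40 j) (Finset.mem_univ l)
  have hl5 : ∀ l, b5 l ≤ ∑ l, b5 l := fun l =>
    Finset.single_le_sum (f := b5) (fun j _ => hb50 j) (Finset.mem_univ l)
  have ha6 := abs_nonneg b6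
  have ha7 := abs_nonneg b7
  have hnt : ∀ t : ℝ, t ∈ Set.Icc (0 : ℝ) 1 → ‖(t : ℂ)‖ ≤ 1 := by
    intro t ht
    rw [Complex.norm_real, Real.norm_eq_abs, abs_of_nonneg ht.1]
    exact ht.2
  have hmul : ∀ t : ℝ, t ∈ Set.Icc (0 : ℝ) 1 → ∀ z : ℂ, ∀ r : ℝ, ‖z‖ ≤ r → ‖(t : ℂ) * z‖ ≤ r := by
    intro t ht z r hz
    rw [norm_mul]
    calc ‖(t : ℂ)‖ * ‖z‖ ≤ 1 * ‖z‖ := mul_le_mul_of_nonneg_right (hnt t ht) (norm_nonneg _)
      _ = ‖z‖ := one_mul _
      _ ≤ r := hz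
  have hbf : ∀ t ∈ Set.Icc (0 : ℝ) 1, ∀ x ∈ C, |ft t x| ≤ b := by
    intro t ht x hx
    have h1 : |f₀ x| ≤ |b6| := (hb6 x hx).trans (le_abs_self _)
    have h2 : |g x| ≤ |b7| := (hb7 x hx).trans (le_abs_self _)
    have h3 : |t * g x| ≤ |b7| := by
      rw [abs_mul, abs_of_nonneg ht.1]
      calc t * |g x| ≤ 1 * |g x| := mul_le_mul_of_nonneg_right ht.2 (abs_nonneg _)
        _ ≤ |b7| := by rw [one_mul]; exact h2
    calc |ft t x| ≤ |f₀ x| + |t * g x| := abs_add_le _ _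
      _ ≤ b := by simp only [b]; linarith
  have hbL : ∀ t ∈ Set.Icc (0 : ℝ) 1, ∀ x ∈ C, ∀ i j, ‖LM (ft t) x i j‖ ≤ b := by
    intro t ht x hx i j
    rw [hLft t x (hCT hx), Matrix.add_apply, Matrix.smul_apply, smul_eq_mul]
    calc ‖LM f₀ x i j + (t : ℂ) * LM g x i j‖ ≤ ‖LM f₀ x i j‖ + ‖(t : ℂ) * LM g x i j‖ :=
          norm_add_le _ _
      _ ≤ b3 + b2 := add_le_add (hb3 x hx i j) (hmul t ht _ _ (hb2 x hx i j))
      _ ≤ b := by simp only [b]; linarith
  have hbη : ∀ t ∈ Set.Icc (0 : ℝ) 1, ∀ x ∈ C, ∀ i j, ‖η t x i j‖ ≤ b ∧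
      ∀ l, ‖cdM l (η t) x i j‖ ≤ b := by
    intro t ht x hx i j
    constructor
    · simp only [η, Matrix.sub_apply, Matrix.smul_apply, smul_eq_mul]
      calc ‖A x i j - (t : ℂ) * LM g x i j‖ ≤ ‖A x i j‖ + ‖(t : ℂ) * LM g x i j‖ :=
            norm_sub_le _ _
        _ ≤ b1 + b2 := add_le_add (hb1 x hx i j) (hmul t ht _ _ (hb2 x hx i j))
        _ ≤ b := by simp only [b]; linarith
    · intro l
      have e1 : cdM l (η t) x = cdM l A x - (t : ℂ) • cdM l (LM g) x := by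
        rw [← cdM_smul_const hT (hCT hx) hLgS]
        exact cdM_sub hT (hCT hx) hAS (SmM.smul contDiffOn_const hLgS) l
      rw [e1, Matrix.sub_apply, Matrix.smul_apply, smul_eq_mul]
      calc ‖cdM l A x i j - (t : ℂ) * cdM l (LM g) x i j‖ ≤
            ‖cdM l A x i j‖ + ‖(t : ℂ) * cdM l (LM g) x i j‖ := norm_sub_le _ _
        _ ≤ b4 l + b5 l := add_le_add (hb4 l x hx i j) (hmul t ht _ _ (hb5 l x hx i j))
        _ ≤ b := by
          have := hl4 l
          have := hl5 l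
          simp only [b]; linarith
  -- the constants
  obtain ⟨Λ, hΛ1, hΛ⟩ := hC2E T R H X hH hX C hFC b
  obtain ⟨K, hK⟩ := hCALQ T R H hH C hFC b Λ hΛ1
  obtain ⟨C', hC'T, hC'c, hstep⟩ := hSTEP T R H X hH hX
  obtain ⟨lam, A₀, hlam0, hlam1, hA₀, hst⟩ := hC2A T R H hH C' hC'T hC'c (1 / 2) Λ K (by norm_num)
    (by norm_num) hΛ1
  obtain ⟨δ, hδ0, hδ⟩ := hstep (1 / 2) lam A₀ (by norm_num) (by norm_num) hlam0 hlam1 hA₀ g hgI
  -- one step
  have key : ∀ t ∈ Set.Icc (0 : ℝ) 1, (∃ v, MASol T R H X (ft t) v) → ∀ s : ℝ, |s| ≤ δ →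
      ∃ v, MASol T R H X (ft (t + s)) v := by
    rintro t ht ⟨v, hv⟩ s hs
    have hbd := hΛ (ft t) v (hftI t) (fun x hx => ⟨hbf t ht x hx, hbL t ht x hx⟩) hv
    have hrho : ∀ x ∈ T, rho (fun y => X y + LM v y) x = (X x + LM v x) - η t x := by
      intro x hx
      have h1 : rho (fun y => X y + LM v y) x = LM (fun y => v y + ft t y + ld H y) x := by
        unfold rho
        refine Pool.Agent.Helper56.HS.LM_congr ?_
        filter_upwards [hT.mem_nhds hx] with y hy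
        exact hv.log_eq hH hy
      have h2 : LM (fun y => v y + ft t y + ld H y) x =
          LM (fun y => v y + ft t y) x + LM (ld H) x :=
        Pool.Agent.Helper56.HS.LM_add hWIRT hT (hv.1.1.add (hftI t).1) hldH hx
      have h3 : LM (fun y => v y + ft t y) x = LM v x + LM (ft t) x :=
        Pool.Agent.Helper56.HS.LM_add hWIRT hT hv.1.1 (hftI t).1 hx
      rw [h1, h2, h3, hLft t x hx]
      simp only [η, A, rho]
      abel
    have hAQ := hK (fun y => X y + LM v y) (η t) hv.2.1 (hηS t) hrho (hbη t ht)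
      (fun x hx => ⟨(hbd x hx).2.1, (hbd x hx).2.2⟩)
    have hStp := hst (fun y => X y + LM v y) hv.2.1
      (fun x hx => ⟨(hbd x hx).2.1, (hbd x hx).2.2⟩) hAQ
    obtain ⟨v', hv'⟩ := hδ (ft t) v (hftI t) hv hStp s hs
    refine ⟨v', ?_⟩
    have e : ft (t + s) = fun x => ft t x + s * g x := by
      funext x
      simp only [ft]
      ring
    rw [e]
    exact hv'
  -- induction
  obtain ⟨N, hN⟩ := exists_nat_one_div_lt hδ0
  have hN1 : (0 : ℝ) < (N : ℝ) + 1 := by positivity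
  have hind : ∀ k : ℕ, k ≤ N + 1 → ∃ v, MASol T R H X (ft ((k : ℝ) / ((N : ℝ) + 1))) v := by
    intro k
    induction k with
    | zero =>
      intro _
      obtain ⟨v, hv⟩ := h0
      refine ⟨v, ?_⟩
      have e : ft (((0 : ℕ) : ℝ) / ((N : ℝ) + 1)) = f₀ := by
        funext x
        simp [ft]
      rw [e]
      exact hv
    | succ k ih =>
      intro hk
      have h1 := ih (by omega)
      have ht : ((k : ℝ) / ((N : ℝ) + 1)) ∈ Set.Icc (0 : ℝ) 1 := by
        refine ⟨by positivity, ?_⟩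
        rw [div_le_one hN1]
        have : (k : ℝ) ≤ N := by exact_mod_cast (by omega : k ≤ N)
        linarith
      have h2 := key _ ht h1 (1 / ((N : ℝ) + 1)) (by
        rw [abs_of_pos (by positivity)]
        exact hN.le)
      have e : (k : ℝ) / ((N : ℝ) + 1) + 1 / ((N : ℝ) + 1) =
          (((k + 1 : ℕ)) : ℝ) / ((N : ℝ) + 1) := by
        push_cast
        ring
      rw [e] at h2
      exact h2
  obtain ⟨v, hv⟩ := hind (N + 1) le_rfl
  refine ⟨v, ?_⟩
  have e : ft (((N + 1 : ℕ) : ℝ) / ((N : ℝ) + 1)) = f₁ := by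
    have e1 : ((N + 1 : ℕ) : ℝ) / ((N : ℝ) + 1) = 1 := by
      push_cast
      exact div_self hN1.ne'
    rw [e1]
    funext x
    simp only [ft, hg]
    ring
  rw [e] at hv
  exact hv

/-- AYG from PATH. -/
theorem ayg (hKETP : Pool.Agent.Helper95.HS.S_KETP.{u}) (hPATH : S_PATH.{u}) : S_AYG.{u} := by
  intro n T G _ R H X hH hX f hf
  have hf₀ : InvF T R (fun x => ld X x - ld H x) :=
    ((hKETP T R hH.et).2.1 H X hH hX).1
  have hz : ∀ x, LM (fun _ : Cn n => (0 : ℝ)) x = 0 :=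
    fun x => Pool.Agent.Helper56.HS.LM_const 0 x
  have h0 : MASol T R H X (fun x => ld X x - ld H x) (fun _ => 0) := by
    refine ⟨⟨contDiffOn_const, fun _ _ _ _ => rfl⟩, ?_, ?_⟩
    · have e : (fun x => X x + LM (fun _ : Cn n => (0 : ℝ)) x) = X := by
        funext x
        rw [hz, add_zero]
      rw [e]
      exact hX
    · intro x hx
      have h2 : 0 < (H x).det.re := Pool.Agent.Helper56.HS.det_pos' (hH.posDef x hx)
      have h3 : 0 < (X x).det.re := Pool.Agent.Helper56.HS.det_pos' (hX.posDef x hx)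
      rw [hz, add_zero, zero_add, Real.exp_sub]
      unfold ld
      rw [Real.exp_log h2, Real.exp_log h3]
      field_simp
  obtain ⟨v, hv⟩ := hPATH T R H X hH hX _ f hf₀ hf ⟨_, h0⟩
  exact ⟨v, hv.1, hv.2.1, hv.2.2⟩

end Pool.Agent.Helper57.HS
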