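import Pool.Agent.Helper57.HS.GoalsG
import Pool.Agent.Helper95.Lin.Basics

/-! # TRN: transport of bounds by arrows -/

open Complex Metric Set Filter Topology MeasureTheory
open scoped ContDiff ComplexConjugate ComplexOrder Manifold Matrix

namespace Pool.Agent.Helper57.HS

open Pool.Agent.Helper95.Lin Pool.Agent.Helper16.Abund Pool.Agent.Helper92.Orb Pool.Agent.Helper10.SP
  Pool.Agent.Helper95.RK

universe u

theorem CB_mono' {n : ℕ} {E : Type*} [NormedAddCommGroup E] {a K L : ℝ} {S : Set (Cn n)}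
    {f : Cn n → E} (h : CB a S K f) (hKL : K ≤ L) : CB a S L f :=
  ⟨fun x hx => (h.1 x hx).trans hKL, fun x hx y hy => (h.2 x hx y hy).trans
    (mul_le_mul_of_nonneg_right hKL (Real.rpow_nonneg (norm_nonneg _) _))⟩

theorem trn (hCOV : S_COV) (hCOMP : S_COMP) : S_TRN.{u} := by
  classical
  intro n T G _ R hT C₁ hC₁ C hCT hC a ha ha1
  have hloc : ∀ x ∈ C, ∃ r K : ℝ, 0 < r ∧ 0 < K ∧ ∀ v : Cn n → ℝ, ContDiffOn ℝ 2 v T →
      (∀ γ x y, R γ x y → v y = v x) → ∀ M : ℝ, C2B a C₁ M v →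
      C2B a (closedBall x r) (K * M) v := by
    intro x hx
    obtain ⟨γ, y, hy, hxy⟩ := hC₁.2.2 x (hCT hx)
    obtain ⟨τ, U, W, hU, hW, hxU, hyW, hUT, hWT, hd, -, hmaps, -, hiff⟩ := hT.loc γ x y hxy
    have hτx : τ x = y := ((hiff x hxU y hyW).1 hxy).symm
    have hU' : IsOpen (U ∩ τ ⁻¹' interior C₁) :=
      hd.continuousOn.isOpen_inter_preimage hU isOpen_interior
    have hxU' : x ∈ U ∩ τ ⁻¹' interior C₁ := ⟨hxU, by
      show τ x ∈ interior C₁
      rw [hτx]; exact hy⟩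
    obtain ⟨r, hr, hball⟩ := nhds_basis_closedBall.mem_iff.1 (hU'.mem_nhds hxU')
    have hsm : ContDiffOn ℝ ∞ τ (U ∩ τ ⁻¹' interior C₁) :=
      (holo_contDiffOn_real hU hd).mono inter_subset_left
    obtain ⟨K, hK, hcomp⟩ := hCOMP n τ _ x r a hU' hball hsm ha ha1
    refine ⟨r, K, hr, hK, fun v hv hinv M hM => ?_⟩
    have hM' : C2B a (interior C₁) M v :=
      ⟨fun z hz => hM.1 z (interior_subset hz), fun z hz => hM.2.1 z (interior_subset hz),
        fun z hz w hw => hM.2.2 z (interior_subset hz) w (interior_subset hw)⟩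
    have h1 := hcomp (interior C₁) v M isOpen_interior (fun z hz => hz.2)
      (hv.mono (interior_subset.trans hC₁.1)) hM'
    have he : ∀ z ∈ U ∩ τ ⁻¹' interior C₁, v (τ z) = v z := by
      intro z hz
      exact hinv γ z (τ z) ((hiff z hz.1 (τ z) (hmaps hz.1)).2 rfl)
    have he1 : ∀ z ∈ U ∩ τ ⁻¹' interior C₁, (fun y => v (τ y)) =ᶠ[𝓝 z] v := by
      intro z hz
      filter_upwards [hU'.mem_nhds hz] with w hw
      exact he w hw
    have he2 : ∀ z ∈ U ∩ τ ⁻¹' interior C₁,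
        fderiv ℝ (fun y => v (τ y)) z = fderiv ℝ v z := fun z hz => (he1 z hz).fderiv_eq
    have he3 : ∀ z ∈ U ∩ τ ⁻¹' interior C₁, D2 (fun y => v (τ y)) z = D2 v z := by
      intro z hz
      have h2 : fderiv ℝ (fun y => v (τ y)) =ᶠ[𝓝 z] fderiv ℝ v := by
        filter_upwards [hU'.mem_nhds hz] with w hw
        exact he2 w hw
      exact h2.fderiv_eq
    refine ⟨fun z hz => ?_, fun z hz => ?_, fun z hz w hw => ?_⟩
    · have h2 := h1.1 z hz
      rw [he2 z (hball hz)] at h2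
      rw [← he z (hball hz)]
      exact h2
    · have h2 := h1.2.1 z hz
      rw [he3 z (hball hz)] at h2
      exact h2
    · have h2 := h1.2.2 z hz w hw
      rw [he3 z (hball hz), he3 w (hball hw)] at h2
      exact h2
  choose! r K hr hK hmain using hloc
  obtain ⟨F, K₀, hK₀, hFC, hF⟩ := hCOV n C a r hC ha hr
  have hcov : ∀ y ∈ C, ∃ x ∈ F, y ∈ closedBall x (r x) := by
    intro y hy
    by_contra hcon
    push Not at hcon
    have h1 : CB a C (K₀ * 0) (fun z : Cn n => if z = y then (1 : ℝ) else 0) := by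
      refine hF _ 0 fun x hx => ?_
      have h2 : ∀ z ∈ closedBall x (r x), (if z = y then (1 : ℝ) else 0) = 0 := by
        intro z hz
        rw [if_neg]
        rintro rfl
        exact hcon x hx hz
      refine ⟨fun z hz => ?_, fun z hz w hw => ?_⟩
      · show ‖(if z = y then (1 : ℝ) else 0)‖ ≤ 0
        rw [h2 z hz, norm_zero]
      · show ‖(if z = y then (1 : ℝ) else 0) - (if w = y then (1 : ℝ) else 0)‖ ≤ _
        rw [h2 z hz, h2 w hw, sub_zero, norm_zero, zero_mul]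
    have h3 := h1.1 y hy
    simp only [if_true, norm_one, mul_zero] at h3
    exact absurd h3 (by norm_num)
  set Ks : ℝ := ∑ x ∈ F, K x with hKs
  have hKs0 : 0 ≤ Ks := Finset.sum_nonneg fun x hx => (hK x (hFC x hx)).le
  have hKle : ∀ x ∈ F, K x ≤ Ks := fun x hx =>
    Finset.single_le_sum (f := K) (fun y hy => (hK y (hFC y hy)).le) hx
  refine ⟨(1 + K₀) * Ks + 1, by positivity, fun v hv hinv M hM => ?_⟩
  have hM0 : 0 ≤ M := by
    obtain ⟨x, hx⟩ := hT.nonempty
    obtain ⟨γ, y, hy, -⟩ := hC₁.2.2 x hx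
    exact (norm_nonneg _).trans (hM.1 y (interior_subset hy)).1
  have hb : ∀ x ∈ F, C2B a (closedBall x (r x)) (K x * M) v := fun x hx =>
    hmain x (hFC x hx) v hv hinv M hM
  have hle1 : ∀ x ∈ F, K x * M ≤ Ks * M := fun x hx => mul_le_mul_of_nonneg_right (hKle x hx) hM0
  have hle2 : Ks * M ≤ ((1 + K₀) * Ks + 1) * M := by
    refine mul_le_mul_of_nonneg_right ?_ hM0
    nlinarith
  have hle3 : K₀ * (Ks * M) ≤ ((1 + K₀) * Ks + 1) * M := by
    rw [← mul_assoc]
    refine mul_le_mul_of_nonneg_right ?_ hM0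
    nlinarith
  refine ⟨fun z hz => ?_, ?_⟩
  · obtain ⟨x, hx, hzx⟩ := hcov z hz
    have h1 := (hb x hx).1 z hzx
    exact ⟨h1.1.trans ((hle1 x hx).trans hle2), h1.2.trans ((hle1 x hx).trans hle2)⟩
  · have h1 : CB a C (K₀ * (Ks * M)) (D2 v) :=
      hF (D2 v) (Ks * M) fun x hx => CB_mono' (hb x hx).2 (hle1 x hx)
    exact CB_mono' h1 hle3

end Pool.Agent.Helper57.HS
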