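import Pool.Agent.Helper10.HS.HNEGH
import Pool.Agent.Helper10.HS.KETH
import Pool.Agent.Helper10.HS.Main
import Pool.Agent.Helper10.HS.NHCC
import Pool.Agent.Helper10.HS.PARH
import Pool.Agent.Helper10.HS.PMH
import Pool.Agent.Helper10.HS.UNIH
import Pool.Agent.Helper10.RK.Asm
import Pool.Agent.Helper10.SP.Asm
import Pool.Agent.Helper13.HS.LAL
import Pool.Agent.Helper14.AY.GoalsA
import Pool.Agent.Helper14.AY.MainA
import Pool.Agent.Helper15.HS.Asm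
import Pool.Agent.Helper15.HS.MOMG
import Pool.Agent.Helper16.HS.AYT
import Pool.Agent.Helper24.HS.FLD
import Pool.Agent.Helper24.HS.FLE
import Pool.Agent.Helper24.HS.FLF
import Pool.Agent.Helper34.HS.ITER
import Pool.Agent.Helper34.HS.LINE
import Pool.Agent.Helper34.HS.NONL
import Pool.Agent.Helper36.HS.LSOL
import Pool.Agent.Helper38.HS.LIMC
import Pool.Agent.Helper40.HS.C2A
import Pool.Agent.Helper45.HS.CalcC
import Pool.Agent.Helper45.HS.CalpC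
import Pool.Agent.Helper45.HS.CalqC
import Pool.Agent.Helper45.HS.INVA
import Pool.Agent.Helper45.HS.IPA
import Pool.Agent.Helper49.HS.FLS
import Pool.Agent.Helper55.HS.FLTM
import Pool.Agent.Helper57.HS.COV
import Pool.Agent.Helper57.HS.LMD2
import Pool.Agent.Helper57.HS.PATH
import Pool.Agent.Helper57.HS.TRN
import Pool.Agent.Helper58.HS.LOCS
import Pool.Agent.Helper68.HS.LAPS
import Pool.Agent.Helper68.HS.SCHG
import Pool.Agent.Helper69.HS.PUSHV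
import Pool.Agent.Helper7.HS.COMP
import Pool.Agent.Helper70.AY.LGD
import Pool.Agent.Helper77.HS.STEP
import Pool.Agent.Helper79.HS.IPB
import Pool.Agent.Helper8.HS.FOLZ
import Pool.Agent.Helper80.HS.CALI
import Pool.Agent.Helper84.HS.INTG
import Pool.Agent.Helper91.HS.C0E
import Pool.Agent.Helper91.HS.LOGT
import Pool.Agent.Helper91.HS.TRLA
import Pool.Agent.Helper91.HS.TRMX
import Pool.Agent.Helper94.HS.HALG
import Pool.Agent.Helper94.HS.QEST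
import Pool.Agent.Helper95.HS.Assembly

/-! # HS: assembly of the theorem of Aubin and Yau (`t_AYG`, `t_AYT`) and of the main theorem (`t_MAINHS`) -/

namespace Pool.Agent.Helper57.HS.Asm

theorem t_C0E : Pool.Agent.Helper45.HS.S_C0E :=
  Pool.Agent.Helper91.HS.c0e Pool.Agent.Helper10.SP.Asm.t_LMF Pool.Agent.Helper95.HS.Asm.t_TRC

theorem t_RHOE : Pool.Agent.Helper45.HS.S_RHOE :=
  Pool.Agent.Helper91.HS.rhoe Pool.Agent.Helper10.SP.Asm.t_LMF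

theorem t_LOGT : Pool.Agent.Helper45.HS.S_LOGT :=
  Pool.Agent.Helper91.HS.logt Pool.Agent.Helper95.HS.Asm.t_TRC Pool.Agent.Helper15.HS.Asm.t_CHN Pool.Agent.Helper95.HS.Asm.t_AAPS Pool.Agent.Helper95.HS.Asm.t_CLP

theorem t_TRMX : Pool.Agent.Helper45.HS.S_TRMX :=
  Pool.Agent.Helper91.HS.trmx Pool.Agent.Helper10.SP.Asm.t_LMF

theorem t_C2E : Pool.Agent.Helper57.HS.S_C2E :=
  Pool.Agent.Helper45.HS.c2e t_C0E t_RHOE Pool.Agent.Helper13.HS.lal t_LOGT t_TRMX Pool.Agent.Helper91.HS.trla Pool.Agent.Helper95.HS.Asm.t_TRI Pool.Agent.Helper95.HS.Asm.t_CRV Pool.Agent.Helper95.HS.Asm.t_CMP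

theorem t_IPA : Pool.Agent.Helper45.HS.S_IPA :=
  Pool.Agent.Helper45.HS.ipa Pool.Agent.Helper95.HS.Asm.t_AAPS

theorem t_IPD : Pool.Agent.Helper45.HS.S_IPD :=
  Pool.Agent.Helper45.HS.ipd Pool.Agent.Helper95.HS.Asm.t_CRV

theorem t_COMM : Pool.Agent.Helper45.HS.S_COMM :=
  Pool.Agent.Helper45.HS.comm Pool.Agent.Helper95.HS.Asm.t_CRV

theorem t_BIA : Pool.Agent.Helper45.HS.S_BIA :=
  Pool.Agent.Helper45.HS.bia Pool.Agent.Helper95.HS.Asm.t_CRV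

theorem t_LAPS : Pool.Agent.Helper45.HS.S_LAPS :=
  Pool.Agent.Helper68.HS.laps Pool.Agent.Helper95.HS.Asm.t_CRV t_IPA t_IPD t_COMM t_BIA

theorem t_CALI : Pool.Agent.Helper45.HS.S_CALI :=
  Pool.Agent.Helper80.HS.cali t_LAPS Pool.Agent.Helper79.HS.ipb Pool.Agent.Helper95.HS.Asm.t_CRV

theorem t_CLI : Pool.Agent.Helper45.HS.S_CLI :=
  Pool.Agent.Helper80.HS.cli Pool.Agent.Helper15.HS.Asm.t_CL Pool.Agent.Helper79.HS.ipb Pool.Agent.Helper95.HS.Asm.t_CRV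

theorem t_INVA : Pool.Agent.Helper45.HS.S_INVA :=
  Pool.Agent.Helper45.HS.inva Pool.Agent.Helper10.SP.Asm.t_WCH Pool.Agent.Helper95.HS.Asm.t_CRV

theorem t_CALP : Pool.Agent.Helper57.HS.S_CALP :=
  Pool.Agent.Helper45.HS.calp t_IPA t_CALI t_CLI t_INVA t_TRMX Pool.Agent.Helper91.HS.trla Pool.Agent.Helper95.HS.Asm.t_TRI

theorem t_CALQ : Pool.Agent.Helper57.HS.S_CALQ :=
  Pool.Agent.Helper45.HS.calq_of t_CALP

theorem t_C2A : Pool.Agent.Helper57.HS.S_C2A :=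
  Pool.Agent.Helper40.HS.c2a Pool.Agent.Helper57.HS.cov

theorem t_REGN : Pool.Agent.Helper57.HS.S_REGN :=
  Pool.Agent.Helper14.AY.regn_of_lgd Pool.Agent.Helper70.AY.lgd

theorem t_TRN : Pool.Agent.Helper57.HS.S_TRN :=
  Pool.Agent.Helper57.HS.trn Pool.Agent.Helper57.HS.cov Pool.Agent.Helper7.HS.comp

theorem t_SCHL : Pool.Agent.Helper57.HS.S_SCHL :=
  Pool.Agent.Helper14.AY.schl_of_sch2 Pool.Agent.Helper14.AY.sch2_main

theorem t_LOCS : Pool.Agent.Helper57.HS.S_LOCS :=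
  Pool.Agent.Helper58.HS.locs t_SCHL Pool.Agent.Helper94.HALG.halg Pool.Agent.Helper57.HS.cov

theorem t_SCHG : Pool.Agent.Helper57.HS.S_SCHG :=
  Pool.Agent.Helper68.HS.schg t_TRN Pool.Agent.Helper84.HS.intg t_LOCS

theorem t_LINE : Pool.Agent.Helper57.HS.S_LINE :=
  Pool.Agent.Helper34.HS.line Pool.Agent.Helper95.HS.Asm.t_MAXF Pool.Agent.Helper15.HS.Asm.t_KETP Pool.Agent.Helper94.HALG.halg t_SCHG

theorem t_QEST : Pool.Agent.Helper57.HS.S_QEST :=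
  Pool.Agent.Helper94.HS.qest Pool.Agent.Helper94.HALG.halg

theorem t_NONL : Pool.Agent.Helper57.HS.S_NONL :=
  Pool.Agent.Helper34.HS.nonl Pool.Agent.Helper15.HS.Asm.t_KETP t_TRN Pool.Agent.Helper57.HS.lmd2 t_QEST

theorem t_ITER : Pool.Agent.Helper57.HS.S_ITER :=
  Pool.Agent.Helper34.HS.iter Pool.Agent.Helper57.HS.funn Pool.Agent.Helper36.HS.lsol_done t_LINE t_NONL

theorem t_STEP : Pool.Agent.Helper57.HS.S_STEP :=
  Pool.Agent.Helper77.HS.step Pool.Agent.Helper15.HS.Asm.t_KETP Pool.Agent.Helper10.SP.Asm.t_DETI t_REGN t_ITER t_TRN Pool.Agent.Helper57.HS.lmd2 Pool.Agent.Helper38.HS.LIMC.limc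

theorem t_PATH : Pool.Agent.Helper57.HS.S_PATH :=
  Pool.Agent.Helper57.HS.path Pool.Agent.Helper10.SP.Asm.t_WIRT Pool.Agent.Helper10.SP.Asm.t_LMF t_C2E t_CALQ Pool.Agent.Helper15.HS.Asm.t_RHOI t_C2A t_STEP

theorem t_AYG : Pool.Agent.Helper57.HS.S_AYG :=
  Pool.Agent.Helper57.HS.ayg Pool.Agent.Helper15.HS.Asm.t_KETP t_PATH

theorem t_AYT : Pool.Agent.Helper57.HS.S_AYT :=
  Pool.Agent.Helper16.HS.AYTP.ayt t_AYG Pool.Agent.Helper15.HS.Asm.t_UB Pool.Agent.Helper15.HS.Asm.t_SGN Pool.Agent.Helper15.HS.Asm.t_RHOI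

theorem t_POST : Pool.Agent.Helper57.HS.S_POST :=
  Pool.Agent.Helper95.HS.Asm.post t_AYG t_AYT Pool.Agent.Helper15.HS.Asm.t_COREP'

theorem t_TOUT : Pool.Agent.Helper10.HS.S_TOUT :=
  Pool.Agent.Helper10.HS.tout_of_post t_POST

theorem t_KETH : Pool.Agent.Helper10.HS.S_KETH :=
  Pool.Agent.Helper10.HS.KETHp.keth Pool.Agent.Helper10.HS.PARHp.parh Pool.Agent.Helper10.HS.PMHp.pmh

theorem t_UNIH : Pool.Agent.Helper10.HS.S_UNIH :=
  Pool.Agent.Helper10.HS.UNIHp.unih Pool.Agent.Helper10.HS.PARHp.parh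

theorem t_PUSHV : Pool.Agent.Helper10.HS.S_PUSHV :=
  Pool.Agent.Helper69.HS.pushv Pool.Agent.Helper10.HS.PARHp.parh Pool.Agent.Helper10.SP.Asm.t_DETI Pool.Agent.Helper10.SP.Asm.t_WCH

theorem t_HNEGH : Pool.Agent.Helper10.HS.S_HNEGH :=
  Pool.Agent.Helper10.HS.HNEGHp.hnegh Pool.Agent.Helper10.SP.Asm.t_LMF

theorem t_FLD : Pool.Agent.Helper10.HS.S_FLD :=
  Pool.Agent.Helper24.HS.fld Pool.Agent.Helper10.SP.Asm.t_LMF

theorem t_FLS : Pool.Agent.Helper10.HS.S_FLS :=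
  Pool.Agent.Helper49.HS.fls Pool.Agent.Helper10.RK.Asm.tB_AFFC Pool.Agent.Helper10.RK.Asm.tB_PARBK Pool.Agent.Helper10.RK.Asm.tB_PMB Pool.Agent.Helper10.SP.Asm.t_WCH

theorem t_FLE : Pool.Agent.Helper10.HS.S_FLE :=
  Pool.Agent.Helper24.HS.fle t_FLS Pool.Agent.Helper10.RK.Asm.tB_EXTSK Pool.Agent.Helper10.RK.Asm.tB_TRSK Pool.Agent.Helper10.SP.Asm.t_IDM Pool.Agent.Helper10.RK.Asm.tB_PARBK

theorem t_FLF : Pool.Agent.Helper10.HS.S_FLF :=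
  Pool.Agent.Helper24.HS.flf t_FLE Pool.Agent.Helper10.RK.Asm.tJ_AFB Pool.Agent.Helper10.RK.Asm.tB_PARBK

theorem t_FLTM : Pool.Agent.Helper10.HS.S_FLTM :=
  Pool.Agent.Helper55.HS.fltm Pool.Agent.Helper10.HS.PARHp.parh Pool.Agent.Helper10.HS.PMHp.pmh t_KETH Pool.Agent.Helper10.SP.Asm.t_WCH

theorem t_MAINHS : Pool.Agent.Helper10.HS.S_MAINHS :=
  Pool.Agent.Helper10.HS.mainhs t_TOUT Pool.Agent.Helper10.HS.PMHp.pmh t_KETH t_UNIH t_PUSHV t_HNEGH Pool.Agent.Helper10.HS.nhcc Pool.Agent.Helper8.HS.folz t_FLD t_FLF t_FLTM Pool.Agent.Helper10.RK.Asm.t_FRONT Pool.Agent.Helper10.RK.Asm.tH_MAINRK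

end Pool.Agent.Helper57.HS.Asm
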