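import Pool.Agent.Helper57.HS.DefsB

/-!
# HS: interfaces of the proof of the Aubin–Yau theorem `S_AYG`

The path: `det (X + LM u) = e^(u + f_t) det H`, `f_t = f₀ + t (f₁ - f₀)`, with the solution `u = 0` for
`t = 0`. A priori bounds (`S_C2E`, `S_CALP`) and the linear theory (`S_LSOL`, `S_SCHL`) give a step size
which does not depend on `t`; the solutions obtained by contraction in `C^(2,a)` are smooth (`S_REGN`).
-/

open Complex Metric Set Filter Topology MeasureTheory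
open scoped ContDiff ComplexConjugate ComplexOrder Manifold Matrix

namespace Pool.Agent.Helper57.HS

open Pool.Agent.Helper95.Lin Pool.Agent.Helper16.Abund Pool.Agent.Helper92.Orb Pool.Agent.Helper10.SP
  Pool.Agent.Helper95.RK

universe u v

/-! ## Hölder conditions -/

/-- The Hölder condition on `S` with exponent `a` and constant `K`. -/
def HB {n : ℕ} {E : Type*} [NormedAddCommGroup E] (a : ℝ) (S : Set (Cn n)) (K : ℝ)
    (f : Cn n → E) : Prop := ∀ x ∈ S, ∀ y ∈ S, ‖f x - f y‖ ≤ K * ‖x - y‖ ^ a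

/-- `|f| ≤ K` and the Hölder condition with constant `K` on `S`. -/
def CB {n : ℕ} {E : Type*} [NormedAddCommGroup E] (a : ℝ) (S : Set (Cn n)) (K : ℝ)
    (f : Cn n → E) : Prop := (∀ x ∈ S, ‖f x‖ ≤ K) ∧ HB a S K f

/-- The second derivative. -/
noncomputable def D2 {n : ℕ} (f : Cn n → ℝ) (x : Cn n) : Cn n →L[ℝ] Cn n →L[ℝ] ℝ :=
  fderiv ℝ (fderiv ℝ f) x

/-- `f`, its derivatives of order at most two and the Hölder constant of the second derivatives are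
bounded by `K` on `S`. -/
def C2B {n : ℕ} (a : ℝ) (S : Set (Cn n)) (K : ℝ) (f : Cn n → ℝ) : Prop :=
  (∀ x ∈ S, ‖f x‖ ≤ K ∧ ‖fderiv ℝ f x‖ ≤ K) ∧ CB a S K (D2 f)

/-- `A x` is Hermitian with eigenvalues between `lam` and `1/lam`, for `x` in `S`. -/
def Ell {n : ℕ} (lam : ℝ) (S : Set (Cn n)) (A : Cn n → Matrix (Fin n) (Fin n) ℂ) : Prop :=
  ∀ x ∈ S, MLe ((lam : ℂ) • 1) (A x) ∧ MLe (A x) (((lam⁻¹ : ℝ) : ℂ) • 1)

/-- SCHL. The Schauder estimate for functions with small support. -/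
def S_SCHL : Prop := ∀ (n : ℕ) (a lam A₀ : ℝ), 0 < a → a < 1 → 0 < lam → 0 ≤ A₀ →
  ∃ δ > 0, ∃ K > 0, ∀ (x₀ : Cn n) (A : Cn n → Matrix (Fin n) (Fin n) ℂ), Ell lam (ball x₀ δ) A →
    (∀ i j, HB a (ball x₀ δ) A₀ fun x => A x i j) → ∀ w : Cn n → ℝ, ContDiff ℝ 2 w →
    tsupport w ⊆ ball x₀ δ → (∃ K', HB a univ K' (D2 w)) → ∀ M : ℝ,
    HB a univ M (fun x => Matrix.trace (A x * LM w x)) → HB a univ (K * M) (D2 w)

/-- REGN. A solution of class `C^(2,a)` of the Monge–Ampère equation is smooth. -/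
def S_REGN : Prop := ∀ (n : ℕ) (a : ℝ) (W : Set (Cn n)) (X : Cn n → Matrix (Fin n) (Fin n) ℂ)
  (g u : Cn n → ℝ), 0 < a → a < 1 → IsOpen W → (∀ i j, ContDiffOn ℝ ∞ (fun x => X x i j) W) →
  (∀ x ∈ W, (X x).IsHermitian) → ContDiffOn ℝ ∞ g W → ContDiffOn ℝ 2 u W →
  (∀ x ∈ W, ∃ U ∈ 𝓝 x, ∃ K, HB a U K (D2 u)) → (∀ x ∈ W, (X x + LM u x).PosDef) →
  (∀ x ∈ W, Real.log (X x + LM u x).det.re = u x + g x) → ContDiffOn ℝ ∞ u W

/-! ## A priori estimates -/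

/-- `u` is a solution of the equation with right side `e^(u + f) det H`. -/
def MASol {n : ℕ} (T : Set (Cn n)) {G : Type u} [Group G] (R : G → Cn n → Cn n → Prop)
    (H X : Cn n → Matrix (Fin n) (Fin n) ℂ) (f u : Cn n → ℝ) : Prop :=
  InvF T R u ∧ KEt T R (fun x => X x + LM u x) ∧
    ∀ x ∈ T, (X x + LM u x).det.re = Real.exp (u x + f x) * (H x).det.re

/-- C2E. The estimates of order zero and two: for bounded `f`, `LM f`. -/
def S_C2E : Prop := ∀ {n : ℕ} (T : Set (Cn n)) {G : Type u} [Group G]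
  (R : G → Cn n → Cn n → Prop) (H X : Cn n → Matrix (Fin n) (Fin n) ℂ), KEt T R H → KEt T R X →
  ∀ C, FunC T R C → ∀ b : ℝ, ∃ Λ : ℝ, 1 ≤ Λ ∧ ∀ f u : Cn n → ℝ, InvF T R f →
    (∀ x ∈ C, |f x| ≤ b ∧ ∀ i j, ‖LM f x i j‖ ≤ b) → MASol T R H X f u →
    ∀ x ∈ T, |u x| ≤ Λ ∧ MLe (H x) ((Λ : ℂ) • (X x + LM u x)) ∧
      MLe (X x + LM u x) ((Λ : ℂ) • H x)

/-- PATH. The continuity method. -/
def S_PATH : Prop := ∀ {n : ℕ} (T : Set (Cn n)) {G : Type u} [Group G]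
  (R : G → Cn n → Cn n → Prop) (H X : Cn n → Matrix (Fin n) (Fin n) ℂ), KEt T R H → KEt T R X →
  ∀ f₀ f₁ : Cn n → ℝ, InvF T R f₀ → InvF T R f₁ → (∃ u, MASol T R H X f₀ u) →
  ∃ u, MASol T R H X f₁ u

end Pool.Agent.Helper57.HS
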