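import Pool.Agent.Helper10.Stmt.Defs

/-!
# Kähler metrics with nonpositive holomorphic sectional curvature: definitions for the main theorem

Curvature of a Kähler metric in local parametrizations, local flat factors, the twisted Kähler–Einstein
equation, and the growth of the number of invariant pluricanonical forms.
-/

open Complex Set
open scoped Manifold ContDiff ComplexConjugate ComplexOrder Topology

namespace Pool.Agent.Helper57.HS.Stmt

open Pool.Agent.Helper10.Stmt

universe u v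

/-- The matrix of the pull back of the Hermitian metric `h` by `ψ`, at the point `x`. -/
noncomputable def pullM (n : ℕ) {X : Type*} [TopologicalSpace X] [ChartedSpace (Fin n → ℂ) X]
    (h : X → Matrix (Fin n) (Fin n) ℂ) (ψ : (Fin n → ℂ) → X) (x : Fin n → ℂ) :
    Matrix (Fin n) (Fin n) ℂ :=
  Matrix.of fun i j => herm (h (ψ x)) (dvec n ψ x (Pi.single i 1)) (dvec n ψ x (Pi.single j 1))

/-- Twice the derivative `∂/∂z_l`. -/
noncomputable def dz {n : ℕ} (l : Fin n) (f : (Fin n → ℂ) → ℂ) (x : Fin n → ℂ) : ℂ :=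
  fderiv ℝ f x (Pi.single l 1) - I * fderiv ℝ f x (Pi.single l I)

/-- Twice the derivative `∂/∂(conj z_l)`. -/
noncomputable def dzb {n : ℕ} (l : Fin n) (f : (Fin n → ℂ) → ℂ) (x : Fin n → ℂ) : ℂ :=
  fderiv ℝ f x (Pi.single l 1) + I * fderiv ℝ f x (Pi.single l I)

/-- Four times the curvature tensor
`R_ijkl = - ∂_k ∂b_l H_ij + ∑ (∂_k H_ip) (H⁻¹)_pq (∂b_l H_qj)` of the Kähler metric `H` on an open set of
`ℂⁿ`. -/
noncomputable def curv {n : ℕ} (H : (Fin n → ℂ) → Matrix (Fin n) (Fin n) ℂ) (x : Fin n → ℂ)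
    (i j k l : Fin n) : ℂ :=
  - dz k (dzb l fun y => H y i j) x +
    ∑ p, ∑ q, dz k (fun y => H y i p) x * (H x)⁻¹ p q * dzb l (fun y => H y q j) x

/-- The Kähler metric `h` has nonpositive holomorphic sectional curvature: `R(v, v, v, v) ≤ 0` for all
`v`, in every local parametrization. -/
def NonposHSC (n : ℕ) (X : Type*) [TopologicalSpace X] [ChartedSpace (Fin n → ℂ) X]
    (h : X → Matrix (Fin n) (Fin n) ℂ) : Prop :=
  ∀ (V : Set (Fin n → ℂ)) (ψ : (Fin n → ℂ) → X), Par n ψ V → ∀ x ∈ V, ∀ v : Fin n → ℂ,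
    (∑ i, ∑ j, ∑ k, ∑ l, curv (pullM n h ψ) x i j k l * v i * conj (v j) * v k * conj (v l)).re ≤ 0

/-- The Kähler metric `h` is flat. -/
def FlatMetric (n : ℕ) (X : Type*) [TopologicalSpace X] [ChartedSpace (Fin n → ℂ) X]
    (h : X → Matrix (Fin n) (Fin n) ℂ) : Prop :=
  ∀ (V : Set (Fin n → ℂ)) (ψ : (Fin n → ℂ) → X), Par n ψ V → ∀ x ∈ V, ∀ i j k l,
    curv (pullM n h ψ) x i j k l = 0

/-- Four times the Ricci form of the Kähler metric `H`: `- ∂_j ∂b_k log det H`. -/
noncomputable def ricM {n : ℕ} (H : (Fin n → ℂ) → Matrix (Fin n) (Fin n) ℂ) (x : Fin n → ℂ) :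
    Matrix (Fin n) (Fin n) ℂ :=
  Matrix.of fun j k => - dz j (dzb k fun y => ((Real.log (H y).det.re : ℝ) : ℂ)) x

/-- `Ric(g) = - g + ε h` (with the normalization of `ricM`). -/
def TwistedKE (n : ℕ) (X : Type*) [TopologicalSpace X] [ChartedSpace (Fin n → ℂ) X]
    (h : X → Matrix (Fin n) (Fin n) ℂ) (ε : ℝ) (g : X → Matrix (Fin n) (Fin n) ℂ) : Prop :=
  ∀ (V : Set (Fin n → ℂ)) (ψ : (Fin n → ℂ) → X), Par n ψ V → ∀ x ∈ V,
    ricM (pullM n g ψ) x = - pullM n g ψ x + (ε : ℂ) • pullM n h ψ x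

/-- Every point of `X` has a local parametrization `ψ` by a ball of `ℂⁿ` in which the metric `h` is the
product of a metric of an open set of `ℂᵇ` (the first `b` coordinates) and the flat metric of
`ℂⁿ⁻ᵇ`. -/
def LocalFlatFactor (b n : ℕ) (X : Type*) [TopologicalSpace X] [ChartedSpace (Fin n → ℂ) X]
    (h : X → Matrix (Fin n) (Fin n) ℂ) : Prop :=
  ∀ p : X, ∃ (r : ℝ) (ψ : (Fin n → ℂ) → X), 0 < r ∧ Par n ψ (Metric.ball 0 r) ∧
    InjOn ψ (Metric.ball 0 r) ∧ ψ 0 = p ∧ ∀ x ∈ Metric.ball (0 : Fin n → ℂ) r,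
      (∀ i j : Fin n, b ≤ i.val ∨ b ≤ j.val → pullM n h ψ x i j = if i = j then 1 else 0) ∧
      ∀ y ∈ Metric.ball (0 : Fin n → ℂ) r, (∀ i : Fin n, i.val < b → x i = y i) →
        pullM n h ψ x = pullM n h ψ y

/-- `c` is a `G`-invariant `m`-canonical form on `M`. -/
def InvPluri (n : ℕ) (G M : Type*) [Group G] [MulAction G M] [TopologicalSpace M]
    [ChartedSpace (Fin n → ℂ) M] (m : ℕ) (c : M → ℂ) : Prop :=
  IsPluriForm n M m c ∧ ∀ (γ : G) (y : M), c (γ • y) * jac n (fun z : M => γ • z) y ^ m = c y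

/-- The number of linearly independent `G`-invariant `m`-canonical forms on `M` is at least `c m ^ b`
for a constant `c > 0` and all `m ≥ 1` divisible by a fixed number. -/
def GrowthGE (b n : ℕ) (G M : Type*) [Group G] [MulAction G M] [TopologicalSpace M]
    [ChartedSpace (Fin n → ℂ) M] : Prop :=
  ∃ (c : ℝ) (M₀ : ℕ), 0 < c ∧ 1 ≤ M₀ ∧ ∀ m : ℕ, 1 ≤ m → M₀ ∣ m → ∃ (N : ℕ) (f : Fin N → M → ℂ),
    c * (m : ℝ) ^ b ≤ N ∧ LinearIndependent ℂ f ∧ ∀ i, InvPluri n G M m (f i)

/-- The main theorem HS. A group `G` acts on the connected complex manifold `M` of dimension `n`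
properly discontinuously with compact quotient, preserving a Kähler metric `h` with nonpositive
holomorphic sectional curvature which is not flat. Then (1) for every `ε > 0` there is an invariant
Kähler metric `g` with `Ric(g) = - g + ε h` (so the canonical bundle of `M/G` is nef), and (2) for some
`b` with `1 ≤ b ≤ n` the metric `h` is locally the product of a metric of an open set of `ℂᵇ` and the
flat metric of `ℂⁿ⁻ᵇ` (so `Ric(h) ^ (b + 1) = 0` and the numerical dimension of the canonical bundle is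
at most `b`), and the number of invariant `m`-canonical forms is at least `c m ^ b` (so its Kodaira
dimension is at least `b`). So both are `b`: the canonical bundle is abundant. -/
def MainHS : Prop := ∀ {n : ℕ} {G : Type u} {M : Type v} [Group G] [MulAction G M]
  [TopologicalSpace M] [T2Space M] [ConnectedSpace M] [ChartedSpace (Fin n → ℂ) M]
  [IsManifold 𝓘(ℂ, Fin n → ℂ) ω M], ProperCocompact n G M →
  ∀ h : M → Matrix (Fin n) (Fin n) ℂ, KahlerMetric n M h →
  (∀ γ : G, InvMetric n h (fun y : M => γ • y)) → NonposHSC n M h → ¬ FlatMetric n M h →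
  (∀ ε : ℝ, 0 < ε → ∃ g : M → Matrix (Fin n) (Fin n) ℂ, KahlerMetric n M g ∧
    (∀ γ : G, InvMetric n g (fun y : M => γ • y)) ∧ TwistedKE n M h ε g) ∧
  ∃ b : ℕ, 1 ≤ b ∧ b ≤ n ∧ LocalFlatFactor b n M h ∧ GrowthGE b n G M

end Pool.Agent.Helper57.HS.Stmt
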