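import Pool.Agent.Helper95.RK.DefsK
import Pool.Agent.Helper57.HS.Stmt

/-!
# HS: internal definitions

Conventions: `cd k = 2 ∂_k`, `cdb k = 2 ∂b_k`, `LM u j k = cd j (cdb k u)`, matrices act on rows. An invariant
Hermitian form field `H` satisfies `H x = J (H (τ x)) Jᴴ` under an arrow `τ` (`J i p = ∂_i τ_p`), i.e.
`hermi (H (τ x)) (Dτ u) (Dτ v) = hermi (H x) u v`; the endomorphism fields `H * Q⁻¹` of two invariant
form fields satisfy `X x = J X(τ x) J⁻¹`. All curvatures are `4` times the usual ones. See `paper.md`.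
-/

open Complex Metric Set Filter Topology MeasureTheory
open scoped ContDiff ComplexConjugate ComplexOrder Manifold Matrix

namespace Pool.Agent.Helper57.HS

open Pool.Agent.Helper95.Lin Pool.Agent.Helper16.Abund Pool.Agent.Helper92.Orb Pool.Agent.Helper10.SP
  Pool.Agent.Helper95.RK

universe u v

/-! ## Connection and curvature of a matrix field -/

/-- Entrywise `cd k`. -/
noncomputable def cdM {n m : ℕ} (k : Fin n) (H : Cn n → Matrix (Fin m) (Fin m) ℂ) (x : Cn n) :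
    Matrix (Fin m) (Fin m) ℂ := Matrix.of fun i j => cd k (fun y => H y i j) x

/-- Entrywise `cdb k`. -/
noncomputable def cdbM {n m : ℕ} (k : Fin n) (H : Cn n → Matrix (Fin m) (Fin m) ℂ) (x : Cn n) :
    Matrix (Fin m) (Fin m) ℂ := Matrix.of fun i j => cdb k (fun y => H y i j) x

/-- The connection matrix `(cd k H) H⁻¹`. -/
noncomputable def Gam {n : ℕ} (H : Cn n → Matrix (Fin n) (Fin n) ℂ) (k : Fin n) (x : Cn n) :
    Matrix (Fin n) (Fin n) ℂ := cdM k H x * (H x)⁻¹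

/-- The logarithm of the determinant of a positive definite matrix field. -/
noncomputable def ld {n m : ℕ} (H : Cn n → Matrix (Fin m) (Fin m) ℂ) (x : Cn n) : ℝ :=
  Real.log (H x).det.re

/-- `ρ = LM (log det H) = - Ric H`. -/
noncomputable def rho {n : ℕ} (H : Cn n → Matrix (Fin n) (Fin n) ℂ) (x : Cn n) :
    Matrix (Fin n) (Fin n) ℂ := LM (ld H) x

/-- The curvature tensor, `crv i j k l = (- (cdb l Γ_k) H) i j`. -/
noncomputable def crv {n : ℕ} (H : Cn n → Matrix (Fin n) (Fin n) ℂ) (x : Cn n)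
    (i j k l : Fin n) : ℂ :=
  - cd k (cdb l fun y => H y i j) x + (cdM k H x * (H x)⁻¹ * cdbM l H x) i j

/-- Nonpositive holomorphic sectional curvature on `W`. -/
def NHC {n : ℕ} (H : Cn n → Matrix (Fin n) (Fin n) ℂ) (W : Set (Cn n)) : Prop :=
  ∀ x ∈ W, ∀ v : Cn n,
    (∑ i, ∑ j, ∑ k, ∑ l, crv H x i j k l * v i * conj (v j) * v k * conj (v l)).re ≤ 0

/-- The curvature paired with two matrices: `∑ X j i * Y l k * crv i j k l`. -/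
noncomputable def crvP {n : ℕ} (H : Cn n → Matrix (Fin n) (Fin n) ℂ)
    (X Y : Matrix (Fin n) (Fin n) ℂ) (x : Cn n) : ℂ :=
  ∑ i, ∑ j, ∑ k, ∑ l, X j i * Y l k * crv H x i j k l

/-- The difference of the connections of `Q` and `H`. -/
noncomputable def Adf {n : ℕ} (H Q : Cn n → Matrix (Fin n) (Fin n) ℂ) (k : Fin n) (x : Cn n) :
    Matrix (Fin n) (Fin n) ℂ := Gam Q k x - Gam H k x

/-- `KK = ∑ (Q⁻¹) j i (Q⁻¹) l k crv(H) i j k l`. -/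
noncomputable def KKt {n : ℕ} (H Q : Cn n → Matrix (Fin n) (Fin n) ℂ) (x : Cn n) : ℝ :=
  (crvP H (Q x)⁻¹ (Q x)⁻¹ x).re

/-- `AA = ∑ (Q⁻¹) l k tr (A_k H A_lᴴ Q⁻¹)`. -/
noncomputable def AAt {n : ℕ} (H Q : Cn n → Matrix (Fin n) (Fin n) ℂ) (x : Cn n) : ℝ :=
  (∑ k, ∑ l, (Q x)⁻¹ l k *
    Matrix.trace (Adf H Q k x * H x * (Adf H Q l x)ᴴ * (Q x)⁻¹)).re

/-- Smooth, Hermitian, closed. -/
structure CHF {n : ℕ} (Y : Cn n → Matrix (Fin n) (Fin n) ℂ) (W : Set (Cn n)) : Prop where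
  smooth : ∀ i j, ContDiffOn ℝ ∞ (fun x => Y x i j) W
  herm : ∀ x ∈ W, (Y x).IsHermitian
  closed : ∀ x ∈ W, ∀ i j l, cd l (fun y => Y y i j) x = cd i (fun y => Y y l j) x

/-- `Y` is an invariant form field. -/
def InvH {n : ℕ} {G : Type u} (R : G → Cn n → Cn n → Prop)
    (Y : Cn n → Matrix (Fin n) (Fin n) ℂ) : Prop :=
  ∀ U τ, Arr R U τ → ∀ x ∈ U, ∀ u v,
    hermi (Y (τ x)) (fderiv ℂ τ x u) (fderiv ℂ τ x v) = hermi (Y x) u v

/-! ## Twisted Kähler–Einstein metrics -/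

/-- `Q` is an invariant Kähler metric with `LM (log det Q) = Q - ε H`, i.e. `Ric Q = - Q + ε H`. -/
structure TKE {n : ℕ} (T : Set (Cn n)) {G : Type u} [Group G] (R : G → Cn n → Cn n → Prop)
    (H : Cn n → Matrix (Fin n) (Fin n) ℂ) (ε : ℝ) (Q : Cn n → Matrix (Fin n) (Fin n) ℂ) :
    Prop where
  ket : KEt T R Q
  eq : ∀ x ∈ T, rho Q x = Q x - (ε : ℂ) • H x

/-- The endomorphism `B = ε H Q⁻¹`. -/
noncomputable def Bep {n : ℕ} (ε : ℝ) (H Q : Cn n → Matrix (Fin n) (Fin n) ℂ) (x : Cn n) :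
    Matrix (Fin n) (Fin n) ℂ := (ε : ℂ) • (H x * (Q x)⁻¹)

/-- The integral of the invariant function `f` with respect to `det Q`. -/
noncomputable def itg {n : ℕ} (T : Set (Cn n)) (κ : Cn n → ℝ)
    (Q : Cn n → Matrix (Fin n) (Fin n) ℂ) (f : Cn n → ℝ) : ℝ :=
  ∫ x in T, κ x * (Q x).det.re * f x

/-- The average of the invariant function `f` with respect to `det Q`. -/
noncomputable def avE {n : ℕ} (T : Set (Cn n)) (κ : Cn n → ℝ)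
    (Q : Cn n → Matrix (Fin n) (Fin n) ℂ) (f : Cn n → ℝ) : ℝ :=
  itg T κ Q f / itg T κ Q fun _ => 1

/-- `V(s) = ∫ det (ρ + s H)`. -/
noncomputable def VolP {n : ℕ} (T : Set (Cn n)) (κ : Cn n → ℝ)
    (H : Cn n → Matrix (Fin n) (Fin n) ℂ) (s : ℝ) : ℝ :=
  ∫ x in T, κ x * (rho H x + (s : ℂ) • H x).det.re

/-- The density `det Q / (ε^k det H)`. -/
noncomputable def dens {n : ℕ} (k : ℕ) (ε : ℝ) (H Q : Cn n → Matrix (Fin n) (Fin n) ℂ)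
    (x : Cn n) : ℝ := (Q x).det.re / (ε ^ k * (H x).det.re)

/-- AYT. Existence of the twisted Kähler–Einstein metrics. (Section 2 of the paper.) -/
def S_AYT : Prop := ∀ {n : ℕ} (T : Set (Cn n)) {G : Type u} [Group G]
  (R : G → Cn n → Cn n → Prop) (H : Cn n → Matrix (Fin n) (Fin n) ℂ), KEt T R H → NHC H T →
  ∀ ε : ℝ, 0 < ε → ∃ Q, TKE T R H ε Q

/-! ## The output of the core -/

/-- `P` is a holomorphic parallel `H`-orthogonal projector of rank `k` on `W` whose image is in the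
nullity of the curvature of `H`, and the endomorphisms `ε_j H Q_j⁻¹` converge to `P` in the mean. -/
structure CoreL {n : ℕ} (k : ℕ) (W : Set (Cn n)) (H : Cn n → Matrix (Fin n) (Fin n) ℂ)
    (ε : ℕ → ℝ) (Q : ℕ → Cn n → Matrix (Fin n) (Fin n) ℂ)
    (P : Cn n → Matrix (Fin n) (Fin n) ℂ) : Prop where
  holo : ∀ i j, DifferentiableOn ℂ (fun x => P x i j) W
  proj : ∀ x ∈ W, P x * P x = P x
  tr : ∀ x ∈ W, Matrix.trace (P x) = k
  herm : ∀ x ∈ W, P x * H x = H x * (P x)ᴴ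
  par : ∀ x ∈ W, ∀ l, cdM l P x = Gam H l x * P x - P x * Gam H l x
  null : ∀ x ∈ W, ∀ i j l m, ∑ p, P x i p * crv H x p j l m = 0
  bdd : ∃ C : ℝ, ∀ j, ∀ x ∈ W, dens k (ε j) H (Q j) x ≤ C
  conv : ∀ C ⊆ W, IsCompact C → ∀ a c, Tendsto (fun j => ∫ x in C, dens k (ε j) H (Q j) x *
    ‖Bep (ε j) H (Q j) x a c - P x a c‖) atTop (𝓝 0)
  low : ∀ C ⊆ W, IsCompact C → 0 < volume C → ∃ c > 0, ∀ j, c ≤ ∫ x in C, dens k (ε j) H (Q j) x

/-- The output of the core for the étale relation `R` on `T`. -/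
structure CoreT {n : ℕ} (k : ℕ) (T : Set (Cn n)) {G : Type u} [Group G]
    (R : G → Cn n → Cn n → Prop) (H : Cn n → Matrix (Fin n) (Fin n) ℂ) (ε : ℕ → ℝ)
    (Q : ℕ → Cn n → Matrix (Fin n) (Fin n) ℂ) (P : Cn n → Matrix (Fin n) (Fin n) ℂ) : Prop where
  pos : ∀ j, 0 < ε j
  lim : Tendsto ε atTop (𝓝 0)
  tke : ∀ j, TKE T R H (ε j) (Q j)
  inv : InvH R fun x => P x * H x
  loc : CoreL k T H ε Q P

/-- CORE. (Sections 1, 3, 4, 5 of the paper.) `k` is the order of vanishing of `V` at `0`. -/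
def S_CORE : Prop := ∀ {n : ℕ} (T : Set (Cn n)) {G : Type u} [Group G]
  (R : G → Cn n → Cn n → Prop) (H : Cn n → Matrix (Fin n) (Fin n) ℂ), KEt T R H → NHC H T →
  (∀ ε : ℝ, 0 < ε → ∃ Q, TKE T R H ε Q) → ∃ (k : ℕ) (ε : ℕ → ℝ)
    (Q : ℕ → Cn n → Matrix (Fin n) (Fin n) ℂ) (P : Cn n → Matrix (Fin n) (Fin n) ℂ),
    k ≤ n ∧ CoreT k T R H ε Q P

/-! ## The manifold level -/

/-- A proper cocompact action of `G` on `M` and an invariant Kähler metric `h`. -/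
structure DataH (n : ℕ) (G : Type u) (M : Type v) [Group G] [MulAction G M] [TopologicalSpace M]
    [ChartedSpace (Fin n → ℂ) M] (h : M → Matrix (Fin n) (Fin n) ℂ) : Prop where
  act : OrbAction n G M
  proper : ∀ K : Set M, IsCompact K → {γ : G | ∃ y ∈ K, γ • y ∈ K}.Finite
  kah : KahlerMetric n M h
  inv : ∀ γ : G, InvMetric n h (fun y : M => γ • y)

/-- The output of the core for the manifold `M`: invariant Kähler metrics `g_j` with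
`Ric g_j = - g_j + ε_j h` and an invariant form `q` such that in all local parametrizations the
endomorphism `P = q h⁻¹` is as in `CoreL`. -/
structure CoreX (n k : ℕ) (G : Type u) (M : Type v) [Group G] [MulAction G M]
    [TopologicalSpace M] [ChartedSpace (Fin n → ℂ) M] (h : M → Matrix (Fin n) (Fin n) ℂ)
    (ε : ℕ → ℝ) (g : ℕ → M → Matrix (Fin n) (Fin n) ℂ) (q : M → Matrix (Fin n) (Fin n) ℂ) :
    Prop where
  data : DataH n G M h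
  pos : ∀ j, 0 < ε j
  lim : Tendsto ε atTop (𝓝 0)
  kah : ∀ j, KahlerMetric n M (g j)
  inv : ∀ j, ∀ γ : G, InvMetric n (g j) (fun y : M => γ • y)
  ke : ∀ j (V : Set (Cn n)) (ψ : Cn n → M), Par n ψ V → ∀ x ∈ V,
    rho (pm n (g j) ψ) x = pm n (g j) ψ x - (ε j : ℂ) • pm n h ψ x
  qinv : ∀ γ : G, InvMetric n q (fun y : M => γ • y)
  loc : ∀ (V : Set (Cn n)) (ψ : Cn n → M), Par n ψ V →
    CoreL k V (pm n h ψ) ε (fun j => pm n (g j) ψ) fun x => pm n q ψ x * (pm n h ψ x)⁻¹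

/-- COREX. From `S_AYT`, `S_CORE` to `M`: (1) all metrics, (2) the output of the core. -/
def S_COREX : Prop := ∀ {n : ℕ} {G : Type u} {M : Type v} [Group G] [MulAction G M]
  [TopologicalSpace M] [T2Space M] [ConnectedSpace M] [ChartedSpace (Fin n → ℂ) M]
  [IsManifold 𝓘(ℂ, Fin n → ℂ) ω M] {h : M → Matrix (Fin n) (Fin n) ℂ}, DataH n G M h →
  (∀ (V : Set (Cn n)) (ψ : Cn n → M), Par n ψ V → NHC (pm n h ψ) V) →
  (∀ ε : ℝ, 0 < ε → ∃ g : M → Matrix (Fin n) (Fin n) ℂ, KahlerMetric n M g ∧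
    (∀ γ : G, InvMetric n g (fun y : M => γ • y)) ∧
    ∀ (V : Set (Cn n)) (ψ : Cn n → M), Par n ψ V → ∀ x ∈ V,
      rho (pm n g ψ) x = pm n g ψ x - (ε : ℂ) • pm n h ψ x) ∧
  ∃ (k : ℕ) (ε : ℕ → ℝ) (g : ℕ → M → Matrix (Fin n) (Fin n) ℂ)
    (q : M → Matrix (Fin n) (Fin n) ℂ), k ≤ n ∧ CoreX n k G M h ε g q

/-! ## The foliated structure with constant fibre data -/

/-- The block diagonal matrix. -/
def dg {b k : ℕ} (A : Matrix (Fin b) (Fin b) ℂ) (B : Matrix (Fin k) (Fin k) ℂ) :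
    Matrix (Fin (b + k)) (Fin (b + k)) ℂ :=
  (Matrix.fromBlocks A 0 0 B).submatrix finSumFinEquiv.symm finSumFinEquiv.symm

/-- `ψ` is a local parametrization on `U × Δ` in which `h = diag(Θ(z), 1)` and `q = diag(0, 1)`. -/
structure SpecH {b k : ℕ} {M : Type v} [TopologicalSpace M] [ChartedSpace (Fin (b + k) → ℂ) M]
    (h q : M → Matrix (Fin (b + k)) (Fin (b + k)) ℂ) (U : Set (Cn b)) (Δ : Set (Cn k))
    (ψ : Cn (b + k) → M) (Θ : Cn b → Matrix (Fin b) (Fin b) ℂ) : Prop where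
  par : Par (b + k) ψ (prodK U Δ)
  smT : ∀ i j, ContDiffOn ℝ ∞ (fun z => Θ z i j) U
  posT : ∀ z ∈ U, (Θ z).PosDef
  clT : ∀ z ∈ U, ∀ i j l, cd l (fun y => Θ y i j) z = cd i (fun y => Θ y l j) z
  met : ∀ x ∈ prodK U Δ, pm (b + k) h ψ x = dg (Θ (base x)) 1
  leaf : ∀ x ∈ prodK U Δ, pm (b + k) q ψ x = dg 0 1

/-- `E : D × ℂᵏ → M`, `D` the disjoint union of the balls of radius `R` about the points `c i`, is a
local parametrization in which `h = diag(Θ(z), 1)` and `q = diag(0, 1)`, and the translates of the image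
of `Bd c 1 × (unit ball)` cover `M`. -/
structure LMapH {b k N : ℕ} (G : Type u) {M : Type v} [Group G] [MulAction G M]
    [TopologicalSpace M] [ChartedSpace (Fin (b + k) → ℂ) M]
    (h q : M → Matrix (Fin (b + k)) (Fin (b + k)) ℂ) (c : Fin N → Cn b) (R : ℝ)
    (E : Cn (b + k) → M) (Θ : Cn b → Matrix (Fin b) (Fin b) ℂ) : Prop where
  posN : 0 < N
  one_lt : 1 < R
  sep : ∀ i j, i ≠ j → 10 * R ≤ ‖c i - c j‖
  spec : SpecH h q (Bd c R) (univ : Set (Cn k)) E Θ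
  cov : ∀ p : M, ∃ γ : G, ∃ z ∈ Bd c 1, ∃ w : Cn k, ‖w‖ < 1 ∧ γ • p = E (ptK z w)

/-- The fibre part of `t` is a constant unitary affine map, and the base part preserves `Θ`. -/
structure IsoT {b k : ℕ} (Θ Θ' : Cn b → Matrix (Fin b) (Fin b) ℂ) (t : TriK b k) (z : Cn b) :
    Prop where
  detg : (fderiv ℂ t.g z).det ≠ 0
  met : ∀ u v : Cn b, hermi (Θ' (t.g z)) (fderiv ℂ t.g z u) (fderiv ℂ t.g z v) = hermi (Θ z) u v
  unit : t.A z * (t.A z)ᴴ = 1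
  cstA : ∀ i j, fderiv ℂ (fun y => t.A y i j) z = 0
  cstb : fderiv ℂ t.β z = 0

/-- A complete, proper, cocompact pseudogroup `P` of maps `(z, w) ↦ (g z, A w + β)`, `A` unitary, `A`, `β`
locally constant, over the union `Bd c R` of balls, preserving the Kähler metric `Θ`. All germs between
points of `Bd c 2` extend to the balls of radius `4`. -/
structure AFolT {b k N : ℕ} (c : Fin N → Cn b) (R : ℝ) (P : Set (Cn b) → TriK b k → Prop)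
    (Θ : Cn b → Matrix (Fin b) (Fin b) ℂ) (C : ℝ) : Prop where
  posb : 0 < b
  posN : 0 < N
  Rge : 8 + 8 * C ≤ R
  Cge : 1 ≤ C
  sep : ∀ i j, i ≠ j → 10 * R ≤ ‖c i - c j‖
  smT : ∀ i j, ContDiffOn ℝ ∞ (fun z => Θ z i j) (Bd c R)
  posT : ∀ z ∈ Bd c R, (Θ z).PosDef
  clT : ∀ z ∈ Bd c R, ∀ i j l, cd l (fun y => Θ y i j) z = cd i (fun y => Θ y l j) z
  holo : ∀ U t, P U t → IsOpen U ∧ U ⊆ Bd c R ∧ t.HolOn U ∧
    ∀ z ∈ U, t.g z ∈ Bd c R ∧ (t.A z).det ≠ 0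
  iso : ∀ U t, P U t → ∀ z ∈ U, IsoT Θ Θ t z
  one : ∀ U, IsOpen U → U ⊆ Bd c R → P U TriK.one
  mono : ∀ U U' t, P U t → IsOpen U' → U' ⊆ U → P U' t
  congr : ∀ U t t', P U t → t.EqOn t' U → P U t'
  comp : ∀ U U' U'' t s, P U t → P U' s → IsOpen U'' → U'' ⊆ U' → MapsTo s.g U'' U →
    P U'' (t.comp s)
  inv : ∀ U t, P U t → ∀ z ∈ U, ∃ s U' U'', P U' s ∧ t.g z ∈ U' ∧ IsOpen U'' ∧ z ∈ U'' ∧ U'' ⊆ U ∧
    MapsTo t.g U'' U' ∧ (s.comp t).EqOn TriK.one U''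
  ext : ∀ i, ∀ z ∈ ball (c i) 2, ∀ U t, P U t → z ∈ U → t.g z ∈ Bd c 2 →
    ∃ t' U', P (ball (c i) 4) t' ∧ IsOpen U' ∧ z ∈ U' ∧ U' ⊆ U ∧ t'.EqOn t U'
  lip : ∀ i t, BigK c P i t → ∀ x ∈ ball (c i) 4, ∀ y ∈ ball (c i) 4,
    ‖t.g x - t.g y‖ ≤ C * ‖x - y‖
  abd : ∀ i t, BigK c P i t → ∀ x ∈ ball (c i) 4, MB (t.A x) C ∧ MB (t.A x)⁻¹ C
  bgr : ∀ i t, BigK c P i t → ∀ x ∈ ball (c i) 4, ∀ y ∈ ball (c i) 4,
    ‖t.β x‖ ≤ C * (1 + ‖t.β y‖)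
  fin : ∀ i, ∀ r : ℝ, ∀ s : ℕ → TriK b k, (∀ n, BigK c P i (s n) ∧ ‖(s n).β (c i)‖ ≤ r) →
    ∃ m l, m ≠ l ∧ (s m).EqOn (s l) (ball (c i) 4)
  coc : ∀ z ∈ Bd c R, ∀ w : Cn k, ∃ U t, P U t ∧ z ∈ U ∧ t.g z ∈ Bd c 1 ∧ ‖t.ap z w‖ < 1
  conn : ∀ S ⊆ Bd c 2, IsOpen S → IsOpen (Bd c 2 \ S) →
    (∀ U t, P U t → ∀ z ∈ U, z ∈ Bd c 2 → t.g z ∈ Bd c 2 → (z ∈ S ↔ t.g z ∈ S)) →
    S = ∅ ∨ S = Bd c 2

/-- The étale relation `Rel` on `Bd c 2 × ℂᵏ` together with the pseudogroup `P` of its maps. -/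
structure FEtT {b k N : ℕ} (c : Fin N → Cn b) (R : ℝ) {G : Type u} [Group G]
    (Rel : G → Cn (b + k) → Cn (b + k) → Prop) (P : Set (Cn b) → TriK b k → Prop)
    (Θ : Cn b → Matrix (Fin b) (Fin b) ℂ) (C : ℝ) : Prop where
  fol : AFolT c R P Θ C
  ket : KEt (tubeK k (Bd c 2)) Rel fun x => dg (Θ (base x)) 1
  toP : ∀ γ x y, Rel γ x y → ∃ U t, P U t ∧ base x ∈ U ∧ U ⊆ Bd c 2 ∧ MapsTo t.g U (Bd c 2) ∧
    y = t.map x ∧ ∀ z ∈ U, ∀ w, Rel γ (ptK z w) (ptK (t.g z) (t.ap z w))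
  ofP : ∀ U t, P U t → U ⊆ Bd c 2 → MapsTo t.g U (Bd c 2) →
    ∃ γ, ∀ z ∈ U, ∀ w, Rel γ (ptK z w) (ptK (t.g z) (t.ap z w))

/-- Twisted Kähler–Einstein metrics of the base which do not concentrate: `diag(Y_j(z), ε_j)` are the
metrics of `CoreX` in the leaf map. -/
structure KEB {b k N : ℕ} (c : Fin N → Cn b) {G : Type u} [Group G]
    (Rel : G → Cn (b + k) → Cn (b + k) → Prop) (P : Set (Cn b) → TriK b k → Prop)
    (Θ : Cn b → Matrix (Fin b) (Fin b) ℂ) (ε : ℕ → ℝ) (Y : ℕ → Cn b → Matrix (Fin b) (Fin b) ℂ) :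
    Prop where
  pos : ∀ j, 0 < ε j
  lim : Tendsto ε atTop (𝓝 0)
  smY : ∀ j i l, ContDiffOn ℝ ∞ (fun z => Y j z i l) (Bd c 2)
  posY : ∀ j, ∀ z ∈ Bd c 2, (Y j z).PosDef
  clY : ∀ j, ∀ z ∈ Bd c 2, ∀ i l m, cd m (fun y => Y j y i l) z = cd i (fun y => Y j y m l) z
  ke : ∀ j, ∀ z ∈ Bd c 2, LM (ld (Y j)) z = Y j z - (ε j : ℂ) • Θ z
  inv : ∀ j U t, P U t → ∀ z ∈ U, z ∈ Bd c 2 → t.g z ∈ Bd c 2 → ∀ u v : Cn b,
    hermi (Y j (t.g z)) (fderiv ℂ t.g z u) (fderiv ℂ t.g z v) = hermi (Y j z) u v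
  ket : ∀ j, KEt (tubeK k (Bd c 2)) Rel fun x => dg (Y j (base x)) ((ε j : ℂ) • 1)
  bdd : ∃ C : ℝ, ∀ j, ∀ z ∈ Bd c 2, (Y j z).det.re ≤ C * (Θ z).det.re
  conv : ∀ C ⊆ Bd c 2, IsCompact C → Tendsto (fun j => ∫ z in C, (Y j z).det.re *
    (ε j * (Matrix.trace ((Y j z)⁻¹ * Θ z)).re)) atTop (𝓝 0)
  low : ∀ C ⊆ Bd c 2, IsCompact C → 0 < volume C → ∃ r > 0, ∀ j, r ≤ ∫ z in C, (Y j z).det.re

/-- GEOH. The goal of Section 6 (and `UNIQ` of Section 7) of the paper. -/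
def S_GEOH : Prop := ∀ {b k : ℕ} {G : Type u} {M : Type v} [Group G] [MulAction G M]
  [TopologicalSpace M] [T2Space M] [ConnectedSpace M] [ChartedSpace (Fin (b + k) → ℂ) M]
  [IsManifold 𝓘(ℂ, Fin (b + k) → ℂ) ω M] {h q : M → Matrix (Fin (b + k)) (Fin (b + k)) ℂ}
  {ε : ℕ → ℝ} {g : ℕ → M → Matrix (Fin (b + k)) (Fin (b + k)) ℂ}, 0 < b →
  CoreX (b + k) k G M h ε g q →
  (∀ p : M, ∃ r > 0, ∃ (ψ : Cn (b + k) → M) (Θ : Cn b → Matrix (Fin b) (Fin b) ℂ),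
    SpecH h q (ball (0 : Cn b) r) (ball (0 : Cn k) r) ψ Θ ∧
    InjOn ψ (prodK (ball (0 : Cn b) r) (ball (0 : Cn k) r)) ∧ ψ 0 = p) ∧
  ∃ (N : ℕ) (c : Fin N → Cn b) (R : ℝ) (E : Cn (b + k) → M)
    (Θ : Cn b → Matrix (Fin b) (Fin b) ℂ) (C : ℝ) (Y : ℕ → Cn b → Matrix (Fin b) (Fin b) ℂ),
    LMapH G h q c R E Θ ∧
    FEtT c R (RelT (G := G) (tubeK k (Bd c 2)) E)
      (PMapK (Bd c R) (RelT (G := G) (tubeK k (Bd c R)) E)) Θ C ∧
    KEB c (RelT (G := G) (tubeK k (Bd c 2)) E)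
      (PMapK (Bd c R) (RelT (G := G) (tubeK k (Bd c R)) E)) Θ ε Y

/-- LIET. (Section 7.1 of the paper.) -/
def S_LIET : Prop := ∀ {b k N : ℕ} (c : Fin N → Cn b) (R : ℝ) (P : Set (Cn b) → TriK b k → Prop)
  (Θ : Cn b → Matrix (Fin b) (Fin b) ℂ) (C : ℝ), AFolT c R P Θ C →
  DiscK c P ∨ ∃ (m : ℕ) (V : Fin m → Cn b → Cn b), CFamK c P m V

/-- BOCT. There is no commutative family of infinitesimal generators. (Sections 7.2 - 7.6.) -/
def S_BOCT : Prop := ∀ {b k N : ℕ} (c : Fin N → Cn b) (R : ℝ) {G : Type u} [Group G]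
  (Rel : G → Cn (b + k) → Cn (b + k) → Prop) (P : Set (Cn b) → TriK b k → Prop)
  (Θ : Cn b → Matrix (Fin b) (Fin b) ℂ) (C : ℝ) (ε : ℕ → ℝ)
  (Y : ℕ → Cn b → Matrix (Fin b) (Fin b) ℂ), FEtT c R Rel P Θ C → KEB c Rel P Θ ε Y →
  ∀ (m : ℕ) (V : Fin m → Cn b → Cn b), ¬ CFamK c P m V

/-- The number of linearly independent holomorphic sections of the `m`-th power is at least
`r m ^ b`. -/
def GrowthT {n : ℕ} (b : ℕ) (T : Set (Cn n)) {G : Type u} (R : G → Cn n → Cn n → Prop) : Prop :=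
  ∃ (r : ℝ) (M₀ : ℕ), 0 < r ∧ 1 ≤ M₀ ∧ ∀ m : ℕ, 1 ≤ m → M₀ ∣ m → ∃ (N : ℕ) (f : Fin N → Cn n → ℂ),
    r * (m : ℝ) ^ b ≤ N ∧ (∀ a : Fin N → ℂ, (∀ x ∈ T, ∑ i, a i * f i x = 0) → a = 0) ∧
    ∀ i, Sec T R m (f i) ∧ DifferentiableOn ℂ (f i) T

/-- BIGT. Growth of the number of sections. (Section 9.) -/
def S_BIGT : Prop := ∀ {b k N : ℕ} (c : Fin N → Cn b) (R : ℝ) {G : Type u} [Group G]
  (Rel : G → Cn (b + k) → Cn (b + k) → Prop) (P : Set (Cn b) → TriK b k → Prop)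
  (Θ : Cn b → Matrix (Fin b) (Fin b) ℂ) (C : ℝ) (ε : ℕ → ℝ)
  (Y : ℕ → Cn b → Matrix (Fin b) (Fin b) ℂ), FEtT c R Rel P Θ C → KEB c Rel P Θ ε Y →
  DiscK c P → GrowthT b (tubeK k (Bd c 2)) Rel

end Pool.Agent.Helper57.HS
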